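import Pool.Agent.H4R2.HD.Stubs

/-!
# AS: asymptotics (helper903)
-/

set_option autoImplicit false

open scoped BigOperators ENNReal
open MeasureTheory Filter

namespace Pool.Agent.H4R2.HD.AS

/-- all the left sides of `AS1` are at most `2 ^ (68 d + 74)` -/
theorem AS1 : S_AS1 := by
  intro m
  filter_upwards [eventually_ge_atTop 70] with d hd
  have hD : d ^ 2 ≤ d ^ (m + 2) := Nat.pow_le_pow_right (by omega) (by omega)
  have hd2 : 70 * d ≤ d ^ 2 := by
    rw [sq]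
    exact Nat.mul_le_mul_right _ hd
  have key : ∀ k : ℕ, k ≤ d ^ 2 → 2 ^ k ≤ 2 ^ (d ^ (m + 2)) := fun k hk =>
    Nat.pow_le_pow_right (by norm_num) (hk.trans hD)
  have hdd : d ≤ 2 ^ d := Nat.lt_two_pow_self.le
  have h17 : ∀ k : ℕ, 17 ^ k ≤ 2 ^ (5 * k) := fun k => by
    rw [pow_mul]
    exact Nat.pow_le_pow_left (by norm_num) k
  have h10 : ∀ k : ℕ, 10 ^ k ≤ 2 ^ (4 * k) := fun k => by
    rw [pow_mul]
    exact Nat.pow_le_pow_left (by norm_num) k
  refine ⟨?_, ?_, ?_, ?_⟩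
  · refine le_trans ?_ (key (68 * d + 74) (by omega))
    calc (2 * d * 17 ^ d) ^ 2 * 10 ^ (4 * (3 * d + 4) + 2 * d + 2)
        ≤ (2 * 2 ^ d * 2 ^ (5 * d)) ^ 2 * 2 ^ (4 * (4 * (3 * d + 4) + 2 * d + 2)) :=
          Nat.mul_le_mul (Nat.pow_le_pow_left (Nat.mul_le_mul (Nat.mul_le_mul le_rfl hdd)
            (h17 d)) 2) (h10 _)
      _ = 2 ^ (68 * d + 74) := by
          rw [← pow_succ', ← pow_add, ← pow_mul, ← pow_add]
          congr 1
          ring
  · refine le_trans ?_ (key (18 * d + 7) (by omega))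
    calc 6 * 17 ^ (2 * d) * 10 ^ (2 * d + 1)
        ≤ 2 ^ 3 * 2 ^ (5 * (2 * d)) * 2 ^ (4 * (2 * d + 1)) :=
          Nat.mul_le_mul (Nat.mul_le_mul (by norm_num) (h17 _)) (h10 _)
      _ = 2 ^ (18 * d + 7) := by
          rw [← pow_add, ← pow_add]
          congr 1
          ring
  · refine le_trans ?_ (key (5 * d + 4) (by omega))
    calc 12 * 17 ^ d ≤ 2 ^ 4 * 2 ^ (5 * d) := Nat.mul_le_mul (by norm_num) (h17 _)
      _ = 2 ^ (5 * d + 4) := by
          rw [← pow_add]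
          congr 1
          ring
  · refine le_trans ?_ (key (4 * d + 2) (by omega))
    calc 4 ^ d * (4 * d ^ 2) ≤ 4 ^ d * (4 * (2 ^ d) ^ 2) :=
          Nat.mul_le_mul le_rfl (Nat.mul_le_mul le_rfl (Nat.pow_le_pow_left hdd 2))
      _ = 2 ^ (4 * d + 2) := by
          have h4 : ∀ k : ℕ, 4 ^ k = 2 ^ (2 * k) := fun k => by
            rw [pow_mul]
            norm_num
          have h5 : 4 * (2 ^ d) ^ 2 = 2 ^ (2 * d + 2) := by
            rw [pow_add, ← pow_mul, mul_comm d 2]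
            ring
          rw [h4, h5, ← pow_add]
          congr 1
          ring

theorem tendsto_D (m : ℕ) : Tendsto (fun d : ℕ => d ^ (m + 2)) atTop atTop :=
  tendsto_pow_atTop (by omega)

/-- `2 ^ D` beats every polynomial -/
theorem ev_two_pow (c : ℝ) (k : ℕ) : ∀ᶠ D : ℕ in atTop, c * (D : ℝ) ^ k ≤ 2 ^ D := by
  have h : Tendsto (fun n : ℕ => (n : ℝ) ^ k / 2 ^ n) atTop (nhds 0) :=
    tendsto_pow_const_div_const_pow_of_one_lt k (by norm_num)
  have h2 : Tendsto (fun n : ℕ => c * ((n : ℝ) ^ k / 2 ^ n)) atTop (nhds (c * 0)) := h.const_mul c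
  rw [mul_zero] at h2
  filter_upwards [h2.eventually (gt_mem_nhds (zero_lt_one' ℝ))] with n hn
  have h3 : (0 : ℝ) < 2 ^ n := by positivity
  rw [← mul_div_assoc, div_lt_one h3] at hn
  exact hn.le

theorem two_pow_le_exp (D k : ℕ) : (((2 ^ D : ℕ) : ℝ)) ^ k ≤ Real.exp ((k : ℝ) * D) := by
  have h2e : (2 : ℝ) ≤ Real.exp 1 := by
    have := Real.add_one_le_exp (1 : ℝ)
    linarith
  have h1 : (((2 ^ D : ℕ) : ℝ)) ≤ Real.exp D := by
    push_cast
    calc (2 : ℝ) ^ D ≤ (Real.exp 1) ^ D := pow_le_pow_left₀ (by norm_num) h2e D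
      _ = Real.exp D := by rw [← Real.exp_nat_mul, mul_one]
  calc (((2 ^ D : ℕ) : ℝ)) ^ k ≤ (Real.exp D) ^ k := pow_le_pow_left₀ (by positivity) h1 k
    _ = Real.exp ((k : ℝ) * D) := by rw [← Real.exp_nat_mul]

theorem exp_le_inv (D k : ℕ) : Real.exp (-((k : ℝ) * D)) ≤ ((((2 ^ D : ℕ) : ℝ)) ^ k)⁻¹ := by
  rw [Real.exp_neg]
  exact inv_anti₀ (by positivity) (two_pow_le_exp D k)

theorem AS2 : S_AS2 := by
  intro m N ε hε
  have h1 := (tendsto_D m).eventually (ev_two_pow (32 * 34 / ε) 3)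
  have h2 := (tendsto_D m).eventually (ev_two_pow (4 * N) 1)
  have h3 : ∀ᶠ d : ℕ in atTop, ε / 16 ≤ (d : ℝ) :=
    tendsto_natCast_atTop_atTop.eventually_ge_atTop (ε / 16)
  filter_upwards [h1, h2, h3, eventually_ge_atTop 18] with d h1 h2 h3 hd
  set D : ℕ := d ^ (m + 2) with hD
  have hdR : (18 : ℝ) ≤ d := by exact_mod_cast hd
  have hDd : (d : ℝ) ^ 2 ≤ D := by
    rw [hD]
    push_cast
    exact pow_le_pow_right₀ (by linarith) (by omega)
  have hD1 : (18 : ℝ) ≤ D := by nlinarith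
  have hdD : (d : ℝ) ≤ D := by nlinarith
  have hx0 : 0 ≤ ε / (16 * (d : ℝ) ^ 2) := by positivity
  have hx1 : ε / (16 * (d : ℝ) ^ 2) ≤ 1 := by
    rw [div_le_one (by positivity)]
    nlinarith
  have hx2 : ε / (16 * D) ≤ ε / (16 * (d : ℝ) ^ 2) := by
    apply div_le_div_of_nonneg_left hε.le (by positivity)
    linarith
  have hM : (4 * N : ℝ) ≤ 2 ^ D := by
    refine le_trans ?_ h2
    rw [pow_one]
    nlinarith [Nat.cast_nonneg (α := ℝ) N]
  have hn : (2 : ℝ) ^ D / 2 ≤ ((2 ^ D - 2 * N + 1 : ℕ) : ℝ) := by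
    have h4 : 2 * N ≤ 2 ^ D := by
      have : (2 * N : ℝ) ≤ 2 ^ D := by nlinarith [Nat.cast_nonneg (α := ℝ) N]
      exact_mod_cast this
    rw [Nat.cast_add, Nat.cast_sub h4]
    push_cast
    linarith
  have hpow : (1 - ε / (16 * (d : ℝ) ^ 2)) ^ (2 ^ D - 2 * N + 1) ≤
      Real.exp (-(ε / (16 * D) * (2 ^ D / 2))) := by
    calc (1 - ε / (16 * (d : ℝ) ^ 2)) ^ (2 ^ D - 2 * N + 1)
        ≤ (Real.exp (-(ε / (16 * (d : ℝ) ^ 2)))) ^ (2 ^ D - 2 * N + 1) :=
          pow_le_pow_left₀ (by linarith) (Real.one_sub_le_exp_neg _) _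
      _ = Real.exp (-((ε / (16 * (d : ℝ) ^ 2)) * ((2 ^ D - 2 * N + 1 : ℕ) : ℝ))) := by
          rw [← Real.exp_nat_mul]
          congr 1
          ring
      _ ≤ Real.exp (-(ε / (16 * D) * (2 ^ D / 2))) := by
          apply Real.exp_le_exp.2
          apply neg_le_neg
          exact mul_le_mul hx2 hn (by positivity) hx0
  have h3e : (3 : ℝ) ≤ Real.exp 2 := by
    have := Real.add_one_le_exp (2 : ℝ)
    linarith
  have hexpo : 2 + ((4 * (3 * d + 4) + 2 * d + 2 : ℕ) : ℝ) * D ≤ ε / (16 * D) * (2 ^ D / 2) := by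
    have h5 : ((4 * (3 * d + 4) + 2 * d + 2 : ℕ) : ℝ) ≤ 32 * D := by
      push_cast
      nlinarith
    have h6 : 2 + ((4 * (3 * d + 4) + 2 * d + 2 : ℕ) : ℝ) * D ≤ 34 * (D : ℝ) ^ 2 := by
      nlinarith
    refine h6.trans ?_
    have h7 : ε / (16 * D) * (2 ^ D / 2) = 2 ^ D * ε / (32 * D) := by
      field_simp
      ring
    rw [h7, le_div_iff₀ (by positivity)]
    have h8 : 32 * 34 / ε * (D : ℝ) ^ 3 * ε = 34 * (D : ℝ) ^ 2 * (32 * D) := by
      field_simp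
    rw [← h8]
    exact mul_le_mul_of_nonneg_right h1 hε.le
  calc 3 * (1 - ε / (16 * (d : ℝ) ^ 2)) ^ (2 ^ D - 2 * N + 1)
      ≤ Real.exp 2 * Real.exp (-(ε / (16 * D) * (2 ^ D / 2))) :=
        mul_le_mul h3e hpow (pow_nonneg (by linarith) _) (Real.exp_nonneg _)
    _ = Real.exp (2 - ε / (16 * D) * (2 ^ D / 2)) := by
        rw [← Real.exp_add]
        rfl
    _ ≤ Real.exp (-(((4 * (3 * d + 4) + 2 * d + 2 : ℕ) : ℝ) * D)) := by
        apply Real.exp_le_exp.2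
        linarith
    _ ≤ _ := exp_le_inv D _

theorem AS3 : S_AS3 := by
  intro m ε hε
  obtain ⟨c, hc⟩ : ∃ c : ℝ, c = (ε / 16) ^ 2 / (8 * ((2 * m + 14 : ℕ) : ℝ) ^ 2 *
    ((2 * (2 * m + 14)).factorial : ℝ)) := ⟨_, rfl⟩
  have hc0 : 0 < c := by
    rw [hc]
    positivity
  have h3 : ∀ᶠ d : ℕ in atTop, 8 / c ≤ (d : ℝ) :=
    tendsto_natCast_atTop_atTop.eventually_ge_atTop (8 / c)
  filter_upwards [h3, eventually_ge_atTop 1] with d h3 hd
  have hdR : (1 : ℝ) ≤ d := by exact_mod_cast hd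
  set D : ℕ := d ^ (m + 2) with hD
  have hDR : (D : ℝ) = (d : ℝ) ^ (m + 2) := by
    rw [hD]
    push_cast
    rfl
  have hD1 : (1 : ℝ) ≤ D := by
    rw [hDR]
    exact one_le_pow₀ hdR
  have hsq : (Real.sqrt d) ^ (2 * m + 14) = (d : ℝ) ^ (m + 7) := by
    have : 2 * m + 14 = 2 * (m + 7) := by ring
    rw [this, pow_mul, Real.sq_sqrt (by linarith)]
  have hexp : (ε / (16 * d)) ^ 2 * (Real.sqrt d) ^ (2 * m + 14) /
      (8 * ((2 * m + 14 : ℕ) : ℝ) ^ 2 * ((2 * (2 * m + 14)).factorial : ℝ)) = c * (d : ℝ) ^ 3 * D := by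
    rw [hsq, hc, hDR]
    have h5 : (d : ℝ) ^ (m + 7) = (d : ℝ) ^ 2 * ((d : ℝ) ^ 3 * (d : ℝ) ^ (m + 2)) := by
      rw [← pow_add, ← pow_add]
      congr 1
      ring
    rw [h5]
    have hd0 : (d : ℝ) ≠ 0 := by linarith
    have h6 : (ε / (16 * (d : ℝ))) ^ 2 * (d : ℝ) ^ 2 = (ε / 16) ^ 2 := by
      field_simp
    rw [← mul_assoc, h6]
    ring
  rw [hexp]
  have h4e : (4 : ℝ) ≤ Real.exp 2 := by
    have h1 := Real.add_one_le_exp (1 : ℝ)
    have h2 : Real.exp 2 = Real.exp 1 * Real.exp 1 := by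
      rw [← Real.exp_add]
      norm_num
    rw [h2]
    nlinarith
  have hM : (2 * ((2 ^ D : ℕ) : ℝ) + 1) ≤ Real.exp (2 + D) := by
    have h1 : (((2 ^ D : ℕ) : ℝ)) ≤ Real.exp D := by
      have := two_pow_le_exp D 1
      rw [pow_one, Nat.cast_one, one_mul] at this
      exact this
    have h2 : (1 : ℝ) ≤ ((2 ^ D : ℕ) : ℝ) := by
      exact_mod_cast Nat.one_le_two_pow
    rw [Real.exp_add]
    nlinarith [Real.exp_pos (D : ℝ)]
  calc (2 * ((2 ^ D : ℕ) : ℝ) + 1) ^ d * (4 * Real.exp (-(c * (d : ℝ) ^ 3 * D)))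
      ≤ (Real.exp (2 + D)) ^ d * (Real.exp 2 * Real.exp (-(c * (d : ℝ) ^ 3 * D))) := by
        apply mul_le_mul
        · exact pow_le_pow_left₀ (by positivity) hM d
        · exact mul_le_mul_of_nonneg_right h4e (Real.exp_nonneg _)
        · positivity
        · positivity
    _ = Real.exp (d * (2 + D) + (2 + -(c * (d : ℝ) ^ 3 * D))) := by
        rw [← Real.exp_nat_mul, ← Real.exp_add, ← Real.exp_add]
    _ ≤ Real.exp (-(((2 * d + 1 : ℕ) : ℝ) * D)) := by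
        apply Real.exp_le_exp.2
        have h5 : 8 ≤ c * d := by
          rw [div_le_iff₀ hc0] at h3
          linarith
        have h6 : 8 * ((d : ℝ) * D) ≤ c * (d : ℝ) ^ 3 * D := by
          have h7 : c * (d : ℝ) ^ 3 * D = (c * d) * (d * (d * D)) := by ring
          rw [h7]
          have h8 : (d : ℝ) * D ≤ d * (d * D) := by
            have : (0 : ℝ) ≤ d * D := by positivity
            nlinarith
          exact mul_le_mul h5 h8 (by positivity) (by positivity)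
        have h9 : (1 : ℝ) ≤ d * D := by nlinarith
        have h10 : (d : ℝ) ≤ d * D := by nlinarith
        have h11 : (D : ℝ) ≤ d * D := by nlinarith
        push_cast
        nlinarith
    _ ≤ _ := exp_le_inv D _

theorem AS4 : S_AS4 := by
  intro m
  filter_upwards [eventually_ge_atTop 2] with d hd
  have hdR : (2 : ℝ) ≤ d := by exact_mod_cast hd
  have hm : (1 : ℝ) ≤ (d : ℝ) ^ m := one_le_pow₀ (by linarith)
  have h2 : Real.exp (1 / 2) ≤ 2 := by
    have h := Real.exp_one_lt_d9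
    have h3 : Real.exp (1 / 2) * Real.exp (1 / 2) = Real.exp 1 := by
      rw [← Real.exp_add]
      norm_num
    by_contra hcon
    push Not at hcon
    nlinarith
  have h2e : (2 : ℝ) ≤ Real.exp 1 := by
    have := Real.add_one_le_exp (1 : ℝ)
    linarith
  have h3 : Real.exp ((d : ℝ) ^ m) * 2 ≤ ((2 ^ (d ^ (m + 2)) : ℕ) : ℝ) := by
    calc Real.exp ((d : ℝ) ^ m) * 2 ≤ Real.exp ((d : ℝ) ^ m) * Real.exp 1 :=
          mul_le_mul_of_nonneg_left h2e (Real.exp_nonneg _)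
      _ = Real.exp ((d : ℝ) ^ m + 1) := by rw [Real.exp_add]
      _ ≤ Real.exp ((d ^ (m + 2) : ℕ) * (1 / 2)) := by
          apply Real.exp_le_exp.2
          push_cast
          rw [pow_add]
          nlinarith [mul_nonneg (by linarith : (0 : ℝ) ≤ (d : ℝ) - 2) (by linarith : (0 : ℝ) ≤ (d : ℝ) - 2)]
      _ = (Real.exp (1 / 2)) ^ (d ^ (m + 2)) := by rw [← Real.exp_nat_mul]
      _ ≤ 2 ^ (d ^ (m + 2)) := pow_le_pow_left₀ (Real.exp_nonneg _) h2 _
      _ = _ := by push_cast; rfl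
  rw [Real.exp_neg, inv_eq_one_div, inv_eq_one_div, div_div]
  exact one_div_le_one_div_of_le (by positivity) h3

theorem AS5 : S_AS5 := by
  intro N ε hε
  have h1 : Tendsto (fun d : ℕ => N * ((N + 1).factorial : ℝ) * (Real.sqrt d)⁻¹) atTop
      (nhds (N * ((N + 1).factorial : ℝ) * 0)) := by
    apply Tendsto.const_mul
    exact tendsto_inv_atTop_zero.comp (Real.tendsto_sqrt_atTop.comp tendsto_natCast_atTop_atTop)
  rw [mul_zero] at h1
  have h2 := h1.eventually (gt_mem_nhds (show (0 : ℝ) < ε / 16 by positivity))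
  have h3 : ∀ᶠ d : ℕ in atTop, 16 * ((N : ℝ) + 1) ^ 2 / ε ≤ (d : ℝ) :=
    tendsto_natCast_atTop_atTop.eventually_ge_atTop _
  filter_upwards [h2, h3, eventually_ge_atTop (2 * N + 1)] with d h2 h3 hd
  refine ⟨?_, h3, fun m => ?_⟩
  · have hd0 : (0 : ℝ) < d := by
      have : 0 < d := by omega
      exact_mod_cast this
    have h4 : (ε / (16 * d)) / 2 = (1 / (2 * (d : ℝ))) * (ε / 16) := by
      field_simp
    rw [h4]
    exact mul_le_mul_of_nonneg_left h2.le (by positivity)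
  · have h4 : d ≤ d ^ (m + 2) := Nat.le_self_pow (by omega) d
    have h5 : d ^ (m + 2) < 2 ^ (d ^ (m + 2)) := Nat.lt_two_pow_self
    omega

end Pool.Agent.H4R2.HD.AS
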