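import Pool.Agent.H4R2.HD.Stubs

/-! Basics about the averaging operator `Av`. -/

set_option autoImplicit false

open scoped BigOperators

namespace Pool.Agent.H4R2.HD.BA

open Pool.Agent.H12R2.And (V ee pot PP Q Dep Good mem_Q Q_mono Q_trans add_ee_mem sub_ee_mem)

variable {d : ℕ}

lemma Av_add (f g : V d → ℝ) : Av (fun x => f x + g x) = fun x => Av f x + Av g x := by
  funext x
  unfold Av
  rw [← add_div, ← Finset.sum_add_distrib]
  congr 1
  apply Finset.sum_congr rfl
  intro i _
  ring

lemma Av_smul (c : ℝ) (f : V d → ℝ) : Av (fun x => c * f x) = fun x => c * Av f x := by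
  funext x
  unfold Av
  rw [← mul_div_assoc, Finset.mul_sum]
  congr 1
  apply Finset.sum_congr rfl
  intro i _
  ring

lemma Av_sum {ι : Type} (s : Finset ι) (f : ι → V d → ℝ) :
    Av (fun x => ∑ i ∈ s, f i x) = fun x => ∑ i ∈ s, Av (f i) x := by
  funext x
  unfold Av
  rw [← Finset.sum_div]
  congr 1
  rw [Finset.sum_comm]
  apply Finset.sum_congr rfl
  intro i _
  rw [Finset.sum_add_distrib]

lemma Av_mono (f g : V d → ℝ) (h : ∀ x, f x ≤ g x) (x : V d) : Av f x ≤ Av g x := by
  unfold Av
  apply div_le_div_of_nonneg_right _ (by positivity)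
  exact Finset.sum_le_sum (fun i _ => add_le_add (h _) (h _))

lemma Av_const (hd : 1 ≤ d) (c : ℝ) : Av (fun _ : V d => c) = fun _ => c := by
  funext x
  unfold Av
  have hd' : (d : ℝ) ≠ 0 := by
    have : (0 : ℝ) < d := by exact_mod_cast hd
    exact this.ne'
  rw [Finset.sum_const, Finset.card_univ, Fintype.card_fin, nsmul_eq_mul]
  field_simp
  ring

theorem iter_add : S_BA_iter_add := by
  intro d n f g
  induction n with
  | zero => rfl
  | succ n ih =>
    rw [Function.iterate_succ_apply', ih, Av_add]
    funext x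
    rw [Function.iterate_succ_apply', Function.iterate_succ_apply']

theorem iter_smul : S_BA_iter_smul := by
  intro d n c f
  induction n with
  | zero => rfl
  | succ n ih =>
    rw [Function.iterate_succ_apply', ih, Av_smul]
    funext x
    rw [Function.iterate_succ_apply']

theorem iter_sum : S_BA_iter_sum := by
  intro d ι s n f
  induction n with
  | zero => rfl
  | succ n ih =>
    rw [Function.iterate_succ_apply', ih, Av_sum]
    funext x
    apply Finset.sum_congr rfl
    intro i _
    rw [Function.iterate_succ_apply']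

theorem iter_mono : S_BA_iter_mono := by
  intro d n f g h
  induction n with
  | zero => exact h
  | succ n ih =>
    intro x
    rw [Function.iterate_succ_apply', Function.iterate_succ_apply']
    exact Av_mono _ _ ih x

theorem iter_const_fun (hd : 1 ≤ d) (n : ℕ) (c : ℝ) :
    Av^[n] (fun _ : V d => c) = fun _ => c := by
  induction n with
  | zero => rfl
  | succ n ih => rw [Function.iterate_succ_apply', ih, Av_const hd]

theorem iter_const : S_BA_iter_const := by
  intro d hd n c x
  rw [iter_const_fun hd]

theorem iter_abs : S_BA_iter_abs := by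
  intro d hd n f M h x
  rw [abs_le]
  constructor
  · have h1 := iter_mono n (fun _ => -M) f (fun y => (abs_le.1 (h y)).1) x
    rwa [iter_const hd] at h1
  · have h1 := iter_mono n f (fun _ => M) (fun y => (abs_le.1 (h y)).2) x
    rwa [iter_const hd] at h1

theorem iter_local : S_BA_iter_local := by
  intro d n f g x h
  induction n generalizing x with
  | zero =>
    apply h
    rw [mem_Q]
    intro i
    simp
  | succ n ih =>
    rw [Function.iterate_succ_apply', Function.iterate_succ_apply']
    unfold Av
    congr 1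
    apply Finset.sum_congr rfl
    intro i _
    have e1 : (Av^[n] f) (x + ee i) = (Av^[n] g) (x + ee i) := by
      apply ih
      intro y hy
      apply h
      rw [Nat.add_comm]
      exact Q_trans (add_ee_mem x i) hy
    have e2 : (Av^[n] f) (x - ee i) = (Av^[n] g) (x - ee i) := by
      apply ih
      intro y hy
      apply h
      rw [Nat.add_comm]
      exact Q_trans (sub_ee_mem x i) hy
    exact congrArg₂ (· + ·) e1 e2

/-- the parametrix in terms of multiplication by a constant -/
lemma Gn_eq (N : ℕ) (f : V d → ℝ) :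
    Gn N f = fun x => (2 * (d : ℝ))⁻¹ * ∑ n ∈ Finset.range N, (Av^[n] f) x := by
  funext x
  unfold Gn
  rw [div_eq_inv_mul]

lemma Av_Gn (N : ℕ) (f : V d → ℝ) (x : V d) :
    Av (Gn N f) x = (2 * (d : ℝ))⁻¹ * ∑ n ∈ Finset.range N, (Av^[n + 1] f) x := by
  rw [Gn_eq, Av_smul, Av_sum]
  change (2 * (d : ℝ))⁻¹ * (∑ n ∈ Finset.range N, Av (Av^[n] f) x) = _
  congr 1
  apply Finset.sum_congr rfl
  intro n _
  rw [Function.iterate_succ_apply']

theorem param : S_BA_param := by
  intro d hd N f x
  have hd' : (2 * (d : ℝ)) ≠ 0 := by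
    have : (0 : ℝ) < d := by exact_mod_cast hd
    positivity
  have h1 : ∑ i : Fin d, (Gn N f (x + ee i) + Gn N f (x - ee i)) = 2 * d * Av (Gn N f) x := by
    unfold Av
    rw [mul_div_cancel₀ _ hd']
  rw [h1, Av_Gn, Gn_eq, ← mul_assoc, ← mul_assoc, mul_inv_cancel₀ hd', one_mul, one_mul,
    ← Finset.sum_sub_distrib, Finset.sum_range_sub']
  rfl

theorem Gn_abs : S_BA_Gn_abs := by
  intro d hd N f M h x
  unfold Gn
  rw [abs_div, abs_of_nonneg (by positivity : (0 : ℝ) ≤ 2 * d)]
  apply div_le_div_of_nonneg_right _ (by positivity)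
  refine (Finset.abs_sum_le_sum_abs _ _).trans ?_
  refine (Finset.sum_le_sum (fun n _ => iter_abs hd n f M h x)).trans ?_
  rw [Finset.sum_const, Finset.card_range, nsmul_eq_mul]

end Pool.Agent.H4R2.HD.BA
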