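import Pool.Agent.H4R2.HD.Stubs

set_option autoImplicit false

open scoped BigOperators ENNReal
open MeasureTheory Filter

/-! Tasks DJ and PR (helper59): locality and probability of the initial event. -/

namespace Pool.Agent.H4R2.HD.DJ

open Pool.Agent.H12R2.And (V ee pot PP Q Dep Good mem_Q Q_mono Q_trans card_Q)

lemma av_local (hloc : S_BA_iter_local) {d : ℕ} (n R : ℕ) (x : V d) (hn : n ≤ R)
    (ω ω' : V d → Bool) (h : ∀ y ∈ Q x R, ω y = ω' y) :
    (Av^[n] (pot ω)) x = (Av^[n] (pot ω')) x := by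
  refine hloc n _ _ x fun y hy => ?_
  unfold pot
  rw [h y (Q_mono hn hy)]

lemma uu_local (hloc : S_BA_iter_local) {d : ℕ} (N : ℕ) (x : V d)
    (ω ω' : V d → Bool) (h : ∀ y ∈ Q x (2 * N), ω y = ω' y) :
    (Av^[N] (Uu N ω)) x = (Av^[N] (Uu N ω')) x := by
  refine hloc N _ _ x fun y hy => ?_
  have h2 : ∀ z ∈ Q y N, ω z = ω' z := by
    intro z hz
    apply h
    have := Q_trans hy hz
    rwa [← two_mul] at this
  have h0 : pot ω y = pot ω' y := by
    unfold pot
    rw [h2 y (Pool.Agent.H12R2.And.self_mem_Q y N)]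
  unfold Uu Gn
  rw [h0]
  congr 2
  congr 1
  refine Finset.sum_congr rfl fun n hn => ?_
  exact av_local hloc n N y (Finset.mem_range.mp hn).le ω ω' h2

theorem DJ (hloc : S_BA_iter_local) : S_DJ := by
  intro d N η L0 a hL ω ω' hagree hJ x hx
  have h2 : ∀ y ∈ Q x (2 * N), ω y = ω' y := by
    intro y hy
    apply hagree
    have := Q_trans hx hy
    rwa [Nat.sub_add_cancel hL] at this
  have hJx := hJ x hx
  rw [← av_local hloc N (2 * N) x (by omega) ω ω' h2, ← uu_local hloc N x ω ω' h2]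
  exact hJx

end Pool.Agent.H4R2.HD.DJ
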