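import Pool.Agent.H4R2.HD.Gen

/-!
# Definitions for: the Bernoulli Anderson model in high dimension (helper4, team HD)
-/

set_option autoImplicit false

open scoped BigOperators ENNReal
open MeasureTheory

namespace Pool.Agent.H4R2.HD

open Pool.Agent.H12R2.And (V ee pot PP Q Dep Good)

/-- average over the `2 d` neighbours -/
noncomputable def Av {d : ℕ} (f : V d → ℝ) (x : V d) : ℝ :=
  (∑ i : Fin d, (f (x + ee i) + f (x - ee i))) / (2 * d)

/-- the parametrix `(1 / 2 d) ∑_{n < N} Avⁿ f` of `-Δ` -/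
noncomputable def Gn {d : ℕ} (N : ℕ) (f : V d → ℝ) (x : V d) : ℝ :=
  (∑ n ∈ Finset.range N, (Av^[n] f) x) / (2 * d)

/-- the fluctuation of the second order term -/
noncomputable def Uu {d : ℕ} (N : ℕ) (ω : V d → Bool) (x : V d) : ℝ :=
  pot ω x * Gn N (pot ω) x - 1 / (2 * d)

/-- indicator of a point -/
noncomputable def ind {d : ℕ} (z : V d) (x : V d) : ℝ := open Classical in if x = z then 1 else 0

/-- the initial event: the averages of the potential and of the second order term are small -/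
def JJ {d : ℕ} (N : ℕ) (η : ℝ) (L0 : ℕ) (ω : V d → Bool) (a : V d) : Prop :=
  ∀ x ∈ Q a (L0 - 2 * N), |(Av^[N] (pot ω)) x| ≤ η ∧ |(Av^[N] (Uu N ω)) x| ≤ η

end Pool.Agent.H4R2.HD
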