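import Pool.Agent.H4R2.HD.Gen

set_option autoImplicit false

/-! The engine: absence of absolutely continuous spectrum from a good initial scale. -/

namespace Pool.Agent.H4R2.HD

open Finset Complex MeasureTheory ProbabilityTheory Filter
open scoped ENNReal Topology InnerProductSpace
open Pool.Agent.H12R2.And hiding GG good_of_GG dep_GG meas_GG joint_GG Sh dep_Sh prob_Sh prob_GG FF joint_FF ae_ae_FF

variable {d : ℕ}

/-- If the local event `J` has probability close to one and implies the decay of solutions at all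
energies in `B`, then there is no absolutely continuous spectrum in `B ∩ XX`. -/
theorem engine (hd : 2 ≤ d) {L0 : ℕ} {J : (V d → Bool) → V d → Prop}
    (hJ : ∀ a : V d, Dep (Q a L0) {ω | J ω a}) (h1L : 1 ≤ L0)
    (big1 : (2 * d * 17 ^ d) ^ 2 * 10 ^ (4 * (3 * d + 4) + 2 * d + 2) ≤ L0)
    (big2 : 6 * 17 ^ (2 * d) * 10 ^ (2 * d + 1) ≤ L0) (big4 : 4 ^ d * (4 * d ^ 2) ≤ L0)
    (hP : ∀ a : V d, (PP d).real {ω | ¬ J ω a} ≤ ((L0 : ℝ) ^ (2 * d + 1))⁻¹)
    {B : Set ℝ} (hB : MeasurableSet B) (hBb : B ⊆ Set.Ioc (-(4 * d + 2) : ℝ) (4 * d + 2))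
    (hgood : ∀ E ∈ B, ∀ (ω : V d → Bool) (a : V d), J ω a →
      Good ω E L0 (((L0 : ℝ) ^ (4 * (3 * d + 4) + 2 * d + 2))⁻¹) a) :
    ∀ᵐ ω ∂(PP d), ∀ (H : lp (fun _ : V d => ℂ) 2 →L[ℂ] lp (fun _ : V d => ℂ) 2), IsH ω H →
      ∀ (ψ : lp (fun _ : V d => ℂ) 2) (μ : Measure ℝ), IsFiniteMeasure μ →
        (∀ z : ℂ, z.im ≠ 0 → (∫ x, ((x : ℂ) - z)⁻¹ ∂μ) = inner ℂ ψ (Rz H z ψ)) →
        (μ.restrict (B ∩ XX d (3 * d + 4) L0)) ⟂ₘ volume := by
  have hd1 : 1 ≤ d := by omega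
  set SB : Set ℝ := B ∩ XX d (3 * d + 4) L0 with hSB
  have hSBm : MeasurableSet SB := hB.inter (measurableSet_XX _ _)
  have hfin : volume SB ≠ ∞ :=
    ne_top_of_le_ne_top (by simp : volume (Set.Ioc (-(4 * d + 2) : ℝ) (4 * d + 2)) ≠ ∞)
      (measure_mono (Set.inter_subset_left.trans hBb))
  have hae := ae_ae_FF (d := d) (J := J) (r := 3 * d + 4) (L0 := L0)
    hJ h1L big2 hP hSBm (Set.inter_subset_right) hfin
  filter_upwards [hae] with ω hω H hH ψ μ hμf hμ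
  apply mutuallySingular_of_rnDeriv hSBm
  set r : ℕ := 3 * d + 4 with hr
  set N : ℝ := max (4 * d + 2) (2 * ‖H‖) with hN
  have hd' : (1 : ℝ) ≤ d := by exact_mod_cast hd1
  have hN1 : 4 * d + 2 ≤ N := le_max_left _ _
  set ε : ℕ → ℝ := fun k => ((((10 ^ k * L0 : ℕ) : ℝ)) ^ (3 * r))⁻¹ with hε
  have hLk : ∀ k, 1 ≤ 10 ^ k * L0 := fun k => Nat.one_le_iff_ne_zero.mpr (by positivity)
  have hLk' : ∀ k, (1 : ℝ) ≤ ((10 ^ k * L0 : ℕ) : ℝ) := fun k => by exact_mod_cast hLk k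
  have hε0 : ∀ k, 0 < ε k := fun k => by
    have := hLk' k
    simp only [hε]; positivity
  have hε1 : ∀ k, ε k ≤ N := fun k => by
    have h1 : ε k ≤ 1 := inv_le_one_of_one_le₀ (one_le_pow₀ (hLk' k))
    linarith
  have hLtend : Tendsto (fun k : ℕ => (((10 ^ k * L0 : ℕ) : ℝ))⁻¹) atTop (𝓝 0) := by
    apply tendsto_inv_atTop_zero.comp
    apply tendsto_natCast_atTop_atTop.comp
    apply tendsto_atTop_mono (f := fun k => k)
    · intro k
      calc k ≤ 10 ^ k := (Nat.lt_pow_self (by norm_num)).le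
        _ ≤ 10 ^ k * L0 := Nat.le_mul_of_pos_right _ h1L
    · exact tendsto_id
  have hεt : Tendsto ε atTop (𝓝 0) := by
    refine squeeze_zero (fun k => (hε0 k).le) (fun k => ?_) hLtend
    simp only [hε]
    apply inv_anti₀ (by linarith [hLk' k])
    exact le_self_pow₀ (hLk' k) (by rw [hr]; omega)
  have hBN : B ⊆ Set.Ioc (-N) N := by
    intro E hE
    have := hBb hE
    exact ⟨by linarith [this.1], by linarith [this.2]⟩
  refine singular_on hH.isSelfAdjoint (N := N)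
    (Set.inter_subset_left.trans hBN) (le_max_right _ _) hε0 hε1 hεt
    (fun ψ δ hδ => fin_dense ψ δ hδ) ?_ ψ hμ
  rintro φ ⟨R0, hφ⟩
  have hmem : ∀ᵐ E ∂(volume.restrict SB), E ∈ SB := ae_restrict_mem hSBm
  filter_upwards [hω, hmem] with E hE hES
  -- the good cubes
  have hGG := fun k => good_of_GG (r := r) (M := 4 * (3 * d + 4) + 2 * d + 2) hd1
    (by rw [hr]; omega) h1L big1 (hgood E hES.1) k ω
  have hev : ∀ᶠ k in atTop, gg H φ (ε k) E ≤
      ENNReal.ofReal (7 * (((10 ^ k * L0 : ℕ) : ℝ))⁻¹ * ‖φ‖ ^ 2) := by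
    have hR : ∀ᶠ k : ℕ in atTop, R0 < 10 ^ k * L0 := by
      filter_upwards [eventually_gt_atTop R0] with k hk
      calc R0 < k := hk
        _ ≤ 10 ^ k := (Nat.lt_pow_self (by norm_num)).le
        _ ≤ 10 ^ k * L0 := Nat.le_mul_of_pos_right _ h1L
    filter_upwards [hE, hR] with k hFF hRk
    apply ENNReal.ofReal_le_ofReal
    obtain ⟨hSh, hRR⟩ := hFF
    refine decouple hH (r := r) (M := 4 * (3 * d + 4) + 2 * d + 2) (R0 := R0) (by rw [hr]; omega)
      (by rw [hr]) (hLk k) (big4.trans (Nat.le_mul_of_pos_left _ (by positivity))) hRk ?_ ?_ hφ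
    · have := hRR 0 (by norm_num)
      simpa using this
    · intro w hw hw'
      apply hGG k w
      apply hSh w
      · simpa using hw
      · simpa using hw'
  have hlim : Tendsto (fun k : ℕ => ENNReal.ofReal (7 * (((10 ^ k * L0 : ℕ) : ℝ))⁻¹ * ‖φ‖ ^ 2))
      atTop (𝓝 0) := by
    have h1 : Tendsto (fun k : ℕ => 7 * (((10 ^ k * L0 : ℕ) : ℝ))⁻¹ * ‖φ‖ ^ 2) atTop (𝓝 0) := by
      have := (hLtend.const_mul 7).mul_const (‖φ‖ ^ 2)
      simpa using this
    have h2 := (ENNReal.continuous_ofReal.tendsto 0).comp h1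
    rw [ENNReal.ofReal_zero] at h2
    exact h2
  exact tendsto_of_tendsto_of_tendsto_of_le_of_le' tendsto_const_nhds hlim
    (Eventually.of_forall fun _ => zero_le) hev

end Pool.Agent.H4R2.HD
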