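import Pool.Agent.H4R2.HD.Stubs
import Pool.Agent.H4R2.HD.Eng

set_option autoImplicit false

/-! Assembly. -/

namespace Pool.Agent.H4R2.HD

open Complex MeasureTheory Filter
open scoped ENNReal Topology InnerProductSpace
open Pool.Agent.H12R2.And (V ee pot PP Q Dep Good XX measurableSet_XX volume_compl_XX IsH Rz SS measurableSet_SS)

/-- the energies outside the neighbourhood of the free band -/
def BB (d : ℕ) (ε : ℝ) : Set ℝ :=
  Set.Ioo (-1 : ℝ) (-(1 + ε) / (2 * d)) ∪ Set.Ioo (4 * (d : ℝ) + (1 + ε) / (2 * d)) (4 * (d : ℝ) + 1)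

theorem fin_main (hPR : S_PR) (hDJ : S_DJ) (hGD : S_GD) (h1 : S_AS1) (h2 : S_AS2) (h3 : S_AS3)
    (h4 : S_AS4) (h5 : S_AS5) (ε : ℝ) (hε : 0 < ε) (hε1 : ε ≤ 1) (m : ℕ) :
    ∀ᶠ d : ℕ in atTop, ∃ S : Set ℝ, MeasurableSet S ∧ SS d ⊆ S ∧
      volume (BB d ε \ S) ≤ ENNReal.ofReal (Real.exp (-(d : ℝ) ^ m)) ∧
      ∀ᵐ ω ∂(PP d), ∀ (H : lp (fun _ : V d => ℂ) 2 →L[ℂ] lp (fun _ : V d => ℂ) 2), IsH ω H →
        ∀ (ψ : lp (fun _ : V d => ℂ) 2) (μ : Measure ℝ), IsFiniteMeasure μ →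
        (∀ z : ℂ, z.im ≠ 0 → (∫ x, ((x : ℂ) - z)⁻¹ ∂μ) = inner ℂ ψ (Rz H z ψ)) →
        (μ.restrict S) ⟂ₘ volume := by
  filter_upwards [h1 m, h2 m (2 * m + 14) ε hε, h3 m ε hε, h4 m, h5 (2 * m + 14) ε hε,
    eventually_ge_atTop 2] with d a1 a2 a3 a4 a5 hd
  have hd1 : 1 ≤ d := by omega
  have hd' : (1 : ℝ) ≤ d := by exact_mod_cast hd1
  obtain ⟨b1, b2, b3, b4⟩ := a1
  obtain ⟨c1, c2, c3⟩ := a5
  set N : ℕ := 2 * m + 14 with hN
  set L0 : ℕ := 2 ^ (d ^ (m + 2)) with hL0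
  have hNL : 2 * N ≤ L0 := c3 m
  have hη : (0 : ℝ) < ε / (16 * d) := by positivity
  have hN1 : 1 ≤ N := by omega
  have hP : ∀ a : V d, (PP d).real {ω | ¬ JJ N (ε / (16 * d)) L0 ω a} ≤
      ((L0 : ℝ) ^ (2 * d + 1))⁻¹ := fun a =>
    (hPR hd1 N (ε / (16 * d)) L0 a hN1 hη c1).trans a3
  have hgood : ∀ E ∈ BB d ε, ∀ (ω : V d → Bool) (a : V d), JJ N (ε / (16 * d)) L0 ω a →
      Good ω E L0 (((L0 : ℝ) ^ (4 * (3 * d + 4) + 2 * d + 2))⁻¹) a := by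
    intro E hE ω a hJ
    have hE' : E ≤ -(1 + ε) / (2 * d) ∨ 4 * d + (1 + ε) / (2 * d) ≤ E := by
      rcases hE with hE | hE
      · exact Or.inl hE.2.le
      · exact Or.inr hE.1.le
    exact (hGD hd1 N ε (ε / (16 * d)) L0 hN1 hε hε1 hη.le le_rfl c2 hNL ω a hJ E hE').mono a2
  have hBm : MeasurableSet (BB d ε) := measurableSet_Ioo.union measurableSet_Ioo
  have hBb : BB d ε ⊆ Set.Ioc (-(4 * d + 2) : ℝ) (4 * d + 2) := by
    have hpos : 0 < (1 + ε) / (2 * d) := by positivity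
    have hneg : -(1 + ε) / (2 * d) < 0 := by
      rw [neg_div]; linarith
    rintro E (hE | hE)
    · exact ⟨by linarith [hE.1], by linarith [hE.2]⟩
    · exact ⟨by linarith [hE.1], by linarith [hE.2]⟩
  have hmain := engine hd (fun a => hDJ N (ε / (16 * d)) L0 a hNL) Nat.one_le_two_pow b1 b2 b4 hP
    hBm hBb hgood
  have hSS := Pool.Agent.H12R2.And.main hd
  refine ⟨(BB d ε ∩ XX d (3 * d + 4) L0) ∪ SS d, (hBm.inter (measurableSet_XX _ _)).union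
    measurableSet_SS, Set.subset_union_right, ?_, ?_⟩
  · have hsub : BB d ε \ ((BB d ε ∩ XX d (3 * d + 4) L0) ∪ SS d) ⊆ (XX d (3 * d + 4) L0)ᶜ := by
      rintro E ⟨hE1, hE2⟩ hE3
      exact hE2 (Or.inl ⟨hE1, hE3⟩)
    refine (measure_mono hsub).trans ((volume_compl_XX rfl b3).trans ?_)
    apply ENNReal.ofReal_le_ofReal
    refine a4.trans ?_
    have := Real.exp_pos (-(d : ℝ) ^ m)
    linarith
  · filter_upwards [hmain, hSS] with ω hω hω' H hH ψ μ hμ hμz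
    have e1 := hω H hH ψ μ hμ hμz
    have e2 := hω' H hH ψ μ hμ hμz
    exact (e1.add_left e2).mono_ac (Measure.absolutelyContinuous_of_le
      (Measure.restrict_union_le _ _)) Measure.AbsolutelyContinuous.rfl

end Pool.Agent.H4R2.HD
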