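import Pool.Agent.H4R2.HD.Stubs

/-!
GD: decay of the solutions at the initial scale, from a positive supersolution.
-/

set_option autoImplicit false

open scoped BigOperators
open Finset Complex

namespace Pool.Agent.H4R2.HD.GD

open Pool.Agent.H12R2.And (V ee pot PP Q Dep Good hop mem_Q Q_mono Q_trans add_ee_mem sub_ee_mem
  self_mem_Q)

variable {d : ℕ}

/-- the supersolution -/
noncomputable def phi (N : ℕ) (ω : V d → Bool) (s : ℝ) (x : V d) : ℝ :=
  1 - s * Gn N (pot ω) x + Gn N (Uu N ω) x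

lemma phi_id (hBA : S_BA_param) (hd : 1 ≤ d) (N : ℕ) (ω : V d → Bool) (s : ℝ) (hs : s ^ 2 = 1)
    (x : V d) :
    ∑ i : Fin d, (phi N ω s (x + ee i) + phi N ω s (x - ee i)) =
      (2 * d + s * pot ω x) * phi N ω s x
        - (s * (Av^[N] (pot ω)) x - 1 / (2 * d) - (Av^[N] (Uu N ω)) x
          + s * pot ω x * Gn N (Uu N ω) x) := by
  have h1 := hBA hd N (pot ω) x
  have h2 := hBA hd N (Uu N ω) x
  have e : ∑ i : Fin d, (phi N ω s (x + ee i) + phi N ω s (x - ee i)) =
      2 * d - s * ∑ i : Fin d, (Gn N (pot ω) (x + ee i) + Gn N (pot ω) (x - ee i))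
        + ∑ i : Fin d, (Gn N (Uu N ω) (x + ee i) + Gn N (Uu N ω) (x - ee i)) := by
    have hc : (2 * d : ℝ) = ∑ _i : Fin d, (2 : ℝ) := by simp; ring
    rw [hc, Finset.mul_sum, ← Finset.sum_sub_distrib, ← Finset.sum_add_distrib]
    refine Finset.sum_congr rfl fun i _ => ?_
    unfold phi; ring
  rw [e]
  have hU : Uu N ω x = pot ω x * Gn N (pot ω) x - 1 / (2 * d) := rfl
  rw [hU] at h2
  unfold phi
  linear_combination s * h1 - h2 + (pot ω x * Gn N (pot ω) x) * hs

lemma pot_abs (ω : V d → Bool) (x : V d) : |pot ω x| = 1 := by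
  unfold pot; split_ifs <;> simp

theorem GD (hBA : S_BA_param) (hGn : S_BA_Gn_abs) : S_GD := by
  intro d hd N ε η L0 hN hε hε1 hη hη' hd' hL0 ω a hJ E hE
  have hdR : (1 : ℝ) ≤ d := by exact_mod_cast hd
  have hd0 : (0 : ℝ) < d := by linarith
  have hN' : (1 : ℝ) ≤ N := by exact_mod_cast hN
  -- the sizes
  have hN2 : ((N : ℝ) + 1) ^ 2 ≤ ε * d / 16 := by
    rw [div_le_iff₀ hε] at hd'
    nlinarith
  have hg1 : ∀ x, |Gn N (pot ω) x| ≤ ε / 32 := by
    intro x
    refine (hGn hd N (pot ω) 1 (fun x => (pot_abs ω x).le) x).trans ?_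
    rw [div_le_div_iff₀ (by positivity) (by norm_num)]
    nlinarith
  have hg1' : ∀ x, |Gn N (pot ω) x| ≤ N / (2 * d) := by
    intro x
    simpa using hGn hd N (pot ω) 1 (fun x => (pot_abs ω x).le) x
  have hU : ∀ x, |Uu N ω x| ≤ (N + 1) / (2 * d) := by
    intro x
    have h := hg1' x
    unfold Uu
    refine (abs_sub _ _).trans ?_
    rw [abs_mul, pot_abs, one_mul, abs_of_nonneg (by positivity : (0 : ℝ) ≤ 1 / (2 * d)), add_div]
    linarith
  have hg2 : ∀ x, |Gn N (Uu N ω) x| ≤ ε / 32 / (2 * d) := by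
    intro x
    refine (hGn hd N (Uu N ω) _ hU x).trans ?_
    apply div_le_div_of_nonneg_right _ (by positivity : (0 : ℝ) ≤ 2 * d)
    rw [mul_div_assoc', div_le_div_iff₀ (by positivity) (by norm_num)]
    nlinarith
  have hg2' : ∀ x, |Gn N (Uu N ω) x| ≤ ε / 64 := by
    intro x
    refine (hg2 x).trans ?_
    rw [div_le_iff₀ (by positivity)]
    nlinarith
  have hlow : ∀ s : ℝ, s = 1 ∨ s = -1 → ∀ x, 1 - 3 * ε / 64 ≤ phi N ω s x := by
    intro s hs x
    have h1 := abs_le.1 (hg1 x)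
    have h2 := abs_le.1 (hg2' x)
    unfold phi
    rcases hs with rfl | rfl <;> linarith
  have hupp : ∀ s : ℝ, s = 1 ∨ s = -1 → ∀ x, phi N ω s x ≤ 1 + 3 * ε / 64 := by
    intro s hs x
    have h1 := abs_le.1 (hg1 x)
    have h2 := abs_le.1 (hg2' x)
    unfold phi
    rcases hs with rfl | rfl <;> linarith
  -- the supersolution inequality
  have hsup : ∀ s : ℝ, s = 1 ∨ s = -1 → ∀ x ∈ Q a (L0 - 2 * N),
      ∑ i : Fin d, (phi N ω s (x + ee i) + phi N ω s (x - ee i)) ≤
        (2 * d + s * pot ω x + (1 + ε / 2) / (2 * d)) * phi N ω s x := by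
    intro s hs x hx
    have hs2 : s ^ 2 = 1 := by rcases hs with rfl | rfl <;> norm_num
    have hsa : |s| = 1 := by rcases hs with rfl | rfl <;> norm_num
    rw [phi_id hBA hd N ω s hs2 x]
    obtain ⟨j1, j2⟩ := hJ x hx
    have k1 : |s * (Av^[N] (pot ω)) x| ≤ η := by rw [abs_mul, hsa, one_mul]; exact j1
    have k2 : |s * pot ω x * Gn N (Uu N ω) x| ≤ ε / 32 / (2 * d) := by
      rw [abs_mul, abs_mul, hsa, pot_abs, one_mul, one_mul]; exact hg2 x
    have l1 := abs_le.1 k1
    have l2 := abs_le.1 k2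
    have l3 := abs_le.1 j2
    have hη2 : η ≤ ε / 8 * (1 / (2 * d)) := by
      refine hη'.trans (le_of_eq ?_)
      field_simp; ring
    have hp := hlow s hs x
    have hq : (0 : ℝ) < 1 / (2 * d) := by positivity
    have e1 : ε / 32 / (2 * d) = ε / 32 * (1 / (2 * d)) := by ring
    have e2 : (1 + ε / 2) / (2 * d) = (1 + ε / 2) * (1 / (2 * d)) := by ring
    rw [e1] at l2
    rw [e2]
    set q : ℝ := 1 / (2 * d) with hqdef
    have m1 : (1 + ε / 2) * q * (1 - 3 * ε / 64) ≤ (1 + ε / 2) * q * phi N ω s x := by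
      apply mul_le_mul_of_nonneg_left hp (by positivity)
    have m2 : (1 + 9 * ε / 32) * q ≤ (1 + ε / 2) * q * (1 - 3 * ε / 64) := by
      have : (1 + 9 * ε / 32) ≤ (1 + ε / 2) * (1 - 3 * ε / 64) := by nlinarith
      calc (1 + 9 * ε / 32) * q ≤ ((1 + ε / 2) * (1 - 3 * ε / 64)) * q :=
            mul_le_mul_of_nonneg_right this hq.le
        _ = _ := by ring
    nlinarith
  -- the equation
  intro ε' u S hu hS
  have hS0 : 0 ≤ S := (norm_nonneg _).trans (hS a (self_mem_Q a _))
  obtain ⟨s, hs, hsE⟩ : ∃ s : ℝ, (s = 1 ∨ s = -1) ∧ ∀ x,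
      2 * d + s * pot ω x + (1 + ε) / (2 * d) ≤ |2 * d + pot ω x - E| := by
    rcases hE with hE | hE
    · refine ⟨1, Or.inl rfl, fun x => ?_⟩
      rw [neg_div] at hE
      exact le_trans (by linarith) (le_abs_self _)
    · refine ⟨-1, Or.inr rfl, fun x => ?_⟩
      exact le_trans (by linarith) (neg_le_abs _)
  have hsub : ∀ x ∈ Q a L0, (2 * d + s * pot ω x + (1 + ε) / (2 * d)) * ‖u x‖ ≤
      ∑ i : Fin d, (‖u (x + ee i)‖ + ‖u (x - ee i)‖) := by
    intro x hx
    have hu' := hu x hx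
    have e : (((2 * d + pot ω x - E : ℝ) : ℂ) - ε' * I) * u x
        = ∑ i : Fin d, (u (x + ee i) + u (x - ee i)) := by
      have h1 : hop ω u x = (((2 * d + pot ω x : ℝ)) : ℂ) * u x
          - ∑ i : Fin d, (u (x + ee i) + u (x - ee i)) := by
        unfold hop pot
        simp only [Finset.sum_add_distrib, Finset.sum_sub_distrib, Finset.sum_const,
          Finset.card_univ, Fintype.card_fin, nsmul_eq_mul]
        by_cases h : ω x
        · simp [h]; ring
        · simp [h]; ring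
      rw [h1] at hu'
      push_cast at hu' ⊢
      linear_combination hu'
    have h2 : |2 * d + pot ω x - E| ≤ ‖((2 * d + pot ω x - E : ℝ) : ℂ) - ε' * I‖ := by
      have := Complex.abs_re_le_norm (((2 * d + pot ω x - E : ℝ) : ℂ) - ε' * I)
      simpa using this
    calc (2 * d + s * pot ω x + (1 + ε) / (2 * d)) * ‖u x‖
        ≤ ‖((2 * d + pot ω x - E : ℝ) : ℂ) - ε' * I‖ * ‖u x‖ :=
          mul_le_mul_of_nonneg_right ((hsE x).trans h2) (norm_nonneg _)
      _ = ‖∑ i : Fin d, (u (x + ee i) + u (x - ee i))‖ := by rw [← norm_mul, e]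
      _ ≤ ∑ i : Fin d, ‖u (x + ee i) + u (x - ee i)‖ := norm_sum_le _ _
      _ ≤ _ := Finset.sum_le_sum fun i _ => norm_add_le _ _
  -- the induction
  set θ : ℝ := 1 - ε / (16 * d ^ 2) with hθ
  have hθ0 : 0 ≤ θ := by
    have : ε / (16 * (d : ℝ) ^ 2) ≤ 1 := by
      rw [div_le_one (by positivity)]
      nlinarith
    linarith
  have key : ∀ n : ℕ, n ≤ L0 - 2 * N + 1 → ∀ x ∈ Q a (L0 - 2 * N + 1 - n),
      ‖u x‖ ≤ θ ^ n * (2 * S) * phi N ω s x := by
    intro n
    induction n with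
    | zero =>
      intro _ x hx
      have h1 : ‖u x‖ ≤ S := hS x (Q_mono (by omega) hx)
      have h2 := hlow s hs x
      rw [pow_zero, one_mul]
      nlinarith
    | succ n ih =>
      intro hn x hx
      have ih' := ih (by omega)
      have hxm : x ∈ Q a (L0 - 2 * N) := Q_mono (by omega) hx
      have h1 := hsub x (Q_mono (by omega) hxm)
      have h2 := hsup s hs x hxm
      have hnb : ∀ y ∈ Q x 1, ‖u y‖ ≤ θ ^ n * (2 * S) * phi N ω s y := by
        intro y hy
        apply ih'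
        have := Q_trans hx hy
        refine Q_mono ?_ this
        omega
      have h3 : ∑ i : Fin d, (‖u (x + ee i)‖ + ‖u (x - ee i)‖) ≤
          θ ^ n * (2 * S) * ∑ i : Fin d, (phi N ω s (x + ee i) + phi N ω s (x - ee i)) := by
        rw [Finset.mul_sum]
        refine Finset.sum_le_sum fun i _ => ?_
        have a1 := hnb _ (add_ee_mem x i)
        have a2 := hnb _ (sub_ee_mem x i)
        rw [mul_add]
        linarith
      have hθS : 0 ≤ θ ^ n * (2 * S) := by positivity
      have hsp : |s * pot ω x| = 1 := by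
        rw [abs_mul, pot_abs, mul_one]
        rcases hs with rfl | rfl <;> norm_num
      have hsp' := abs_le.1 hsp.le
      set A : ℝ := 2 * d + s * pot ω x + (1 + ε) / (2 * d) with hA
      have hA0 : 0 < A := by
        have : 0 < (1 + ε) / (2 * d) := by positivity
        linarith
      have hA4 : A ≤ 4 * d := by
        have : (1 + ε) / (2 * d) ≤ 1 := by
          rw [div_le_one (by positivity)]; linarith
        linarith
      have hAθ : 2 * d + s * pot ω x + (1 + ε / 2) / (2 * d) ≤ θ * A := by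
        have e1 : 2 * d + s * pot ω x + (1 + ε / 2) / (2 * d) = A - ε / (4 * d) := by
          rw [hA]; field_simp; ring
        have e2 : ε / (16 * (d : ℝ) ^ 2) * A ≤ ε / (4 * d) := by
          calc ε / (16 * (d : ℝ) ^ 2) * A ≤ ε / (16 * (d : ℝ) ^ 2) * (4 * d) :=
                mul_le_mul_of_nonneg_left hA4 (by positivity)
            _ = ε / (4 * d) := by field_simp; ring
        rw [e1, hθ]
        linarith
      have hφ0 : 0 ≤ phi N ω s x := by
        have := hlow s hs x
        linarith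
      have h4 : A * ‖u x‖ ≤ A * (θ ^ (n + 1) * (2 * S) * phi N ω s x) := by
        calc A * ‖u x‖ ≤ _ := h1
          _ ≤ _ := h3
          _ ≤ θ ^ n * (2 * S) * ((2 * d + s * pot ω x + (1 + ε / 2) / (2 * d)) * phi N ω s x) :=
              mul_le_mul_of_nonneg_left h2 hθS
          _ ≤ θ ^ n * (2 * S) * ((θ * A) * phi N ω s x) :=
              mul_le_mul_of_nonneg_left (mul_le_mul_of_nonneg_right hAθ hφ0) hθS
          _ = _ := by ring
      exact le_of_mul_le_mul_left h4 hA0
  have hfin := key (L0 - 2 * N + 1) le_rfl a (self_mem_Q a _)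
  have hup := hupp s hs a
  calc ‖u a‖ ≤ _ := hfin
    _ ≤ θ ^ (L0 - 2 * N + 1) * (2 * S) * (3 / 2) :=
        mul_le_mul_of_nonneg_left (by linarith) (by positivity)
    _ = _ := by ring

end Pool.Agent.H4R2.HD.GD
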