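import Pool.Agent.H12R2.And11

set_option autoImplicit false

/-! The multiscale analysis of `Pool.Agent.H12R2.And` with an arbitrary local initial event `J`. -/

namespace Pool.Agent.H4R2.HD

open Finset Complex MeasureTheory ProbabilityTheory Filter
open scoped ENNReal
open Pool.Agent.H12R2.And hiding GG good_of_GG dep_GG meas_GG joint_GG Sh dep_Sh prob_Sh prob_GG FF joint_FF ae_ae_FF

variable {d : ℕ}

/-- the good events of the multiscale analysis -/
def GG (J : (V d → Bool) → V d → Prop) (r L0 : ℕ) : ℕ → (V d → Bool) → ℝ → V d → Prop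
  | 0, ω, _, a => J ω a
  | k + 1, ω, E, a => RR r ω E (10 ^ k * L0) a ∧ ∃ i j : ℕ, i < j ∧ j < 3 ∧
      (∀ w : V d, w ∈ Q a ((3 * i + 2) * (10 ^ k * L0)) →
        w ∉ Q a ((3 * i + 2) * (10 ^ k * L0) - 1) → GG J r L0 k ω E w) ∧
      (∀ w : V d, w ∈ Q a ((3 * j + 2) * (10 ^ k * L0)) →
        w ∉ Q a ((3 * j + 2) * (10 ^ k * L0) - 1) → GG J r L0 k ω E w)

lemma good_of_GG {J : (V d → Bool) → V d → Prop} {r L0 M : ℕ} (hd : 1 ≤ d) (hM : 2 * (r + d) + 1 ≤ M) (h1 : 1 ≤ L0)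
    (hL0 : (2 * d * 17 ^ d) ^ 2 * 10 ^ M ≤ L0) {E : ℝ}
    (h0 : ∀ (ω : V d → Bool) (a : V d), J ω a → Good ω E L0 (((L0 : ℝ) ^ M)⁻¹) a) :
    ∀ (k : ℕ) (ω : V d → Bool) (a : V d), GG J r L0 k ω E a →
      Good ω E (10 ^ k * L0) ((((10 ^ k * L0 : ℕ) : ℝ) ^ M)⁻¹) a := by
  intro k
  induction k with
  | zero => intro ω a h; simpa using h0 ω a h
  | succ k ih =>
    rintro ω a ⟨hR, i, j, hij, hj, hi', hj'⟩
    set L := 10 ^ k * L0 with hLdef
    have hL1 : 1 ≤ L := Nat.one_le_iff_ne_zero.mpr (by positivity)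
    have hLL0 : L0 ≤ L := Nat.le_mul_of_pos_left _ (by positivity)
    have hL' : (1 : ℝ) ≤ L := by exact_mod_cast hL1
    have hd' : (1 : ℝ) ≤ d := by exact_mod_cast hd
    have e10 : 10 ^ (k + 1) * L0 = 10 * L := by rw [hLdef]; ring
    rw [e10]
    have hKκ := numeric_step (d := d) hM hL1 (hL0.trans hLL0)
    refine Good.mono ?_ hKκ
    have hi3 : i < 3 := by omega
    refine good_of_two_shells (τ := ((L : ℝ) ^ r)⁻¹) (L := L) (ρ₁ := (3 * i + 2) * L)
      (ρ₂ := (3 * j + 2) * L) (by positivity) (by positivity) ?_ ?_ ?_ ?_ ?_ (hR i hi3) (hR j hj)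
      (fun w hw hw' => ih ω w (hi' w hw hw')) (fun w hw hw' => ih ω w (hj' w hw hw'))
    · have : (1 : ℝ) ≤ 2 * d * 17 ^ d := by
        have : (1 : ℝ) ≤ 17 ^ d := one_le_pow₀ (by norm_num)
        nlinarith
      have h2 : (1 : ℝ) ≤ (L : ℝ) ^ (r + d) := one_le_pow₀ hL'
      nlinarith
    · nlinarith
    · nlinarith
    · nlinarith
    · rw [inv_inv]
      have h8 : (2 * (((3 * j + 2) * L : ℕ) : ℝ) + 1) ≤ 17 * L := by
        have : (3 * j + 2) * L ≤ 8 * L := Nat.mul_le_mul_right _ (by omega)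
        have h9 : (((3 * j + 2) * L : ℕ) : ℝ) ≤ 8 * L := by exact_mod_cast this
        linarith
      have h0' : (0 : ℝ) ≤ 2 * (((3 * j + 2) * L : ℕ) : ℝ) + 1 := by positivity
      calc (L : ℝ) ^ r * (2 * d * (2 * (((3 * j + 2) * L : ℕ) : ℝ) + 1) ^ d)
          ≤ (L : ℝ) ^ r * (2 * d * (17 * L) ^ d) := by gcongr
        _ = 2 * d * 17 ^ d * (L : ℝ) ^ (r + d) := by
            rw [mul_pow, pow_add]; ring

lemma dep_GG (J : (V d → Bool) → V d → Prop) {r L0 : ℕ} (hJ : ∀ a : V d, Dep (Q a L0) {ω | J ω a}) (E : ℝ) : ∀ (k : ℕ) (a : V d),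
    Dep (Q a (10 ^ k * L0)) {ω | GG J r L0 k ω E a} := by
  intro k
  induction k with
  | zero => intro a; simpa [GG] using hJ a
  | succ k ih =>
    intro a
    have e10 : 10 ^ (k + 1) * L0 = 10 * (10 ^ k * L0) := by ring
    rw [e10]
    set L := 10 ^ k * L0 with hLdef
    have key : ∀ (ω ω' : V d → Bool), (∀ x ∈ Q a (10 * L), ω x = ω' x) → ∀ j, j < 3 →
        (∀ w : V d, w ∈ Q a ((3 * j + 2) * L) → w ∉ Q a ((3 * j + 2) * L - 1) →
          GG J r L0 k ω E w) →
        (∀ w : V d, w ∈ Q a ((3 * j + 2) * L) → w ∉ Q a ((3 * j + 2) * L - 1) →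
          GG J r L0 k ω' E w) := by
      intro ω ω' h1 j hj h w hw hw'
      refine ih w ω ω' (fun x hx => h1 x ?_) (h w hw hw')
      refine Q_mono ?_ (Q_trans hw hx)
      have : (3 * j + 2) * L ≤ 8 * L := Nat.mul_le_mul_right _ (by omega)
      omega
    rintro ω ω' h1 ⟨hR, i, j, hij, hj, hi', hj'⟩
    refine ⟨dep_RR r E L a ω ω' (fun x hx => h1 x (Q_mono (by omega) hx)) hR, i, j, hij, hj,
      key ω ω' h1 i (by omega) hi', key ω ω' h1 j hj hj'⟩

lemma meas_GG (J : (V d → Bool) → V d → Prop) (r L0 : ℕ) (ω : V d → Bool) : ∀ (k : ℕ) (a : V d),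
    Measurable (fun E => GG J r L0 k ω E a) := by
  intro k
  induction k with
  | zero => intro a; simp only [GG]; exact measurable_const
  | succ k ih =>
    intro a
    simp only [GG]
    refine (meas_RR r ω _ a).and ?_
    refine Measurable.exists fun i => Measurable.exists fun j => ?_
    refine measurable_const.and (measurable_const.and (Measurable.and ?_ ?_))
    · exact Measurable.forall fun w => Measurable.imp measurable_const
        (Measurable.imp measurable_const (ih w))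
    · exact Measurable.forall fun w => Measurable.imp measurable_const
        (Measurable.imp measurable_const (ih w))

lemma joint_GG (J : (V d → Bool) → V d → Prop) {r L0 : ℕ} (hJ : ∀ a : V d, Dep (Q a L0) {ω | J ω a}) (k : ℕ) (a : V d) :
    MeasurableSet {p : (V d → Bool) × ℝ | GG J r L0 k p.1 p.2 a} :=
  measurable_of_dep (Q a (10 ^ k * L0)) (fun E => dep_GG J hJ E k a)
    (fun ω => measurableSet_setOfPred.2 (meas_GG J r L0 ω k a))

/-- the event that all cubes around a shell are good -/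
def Sh (J : (V d → Bool) → V d → Prop) (r L0 k : ℕ) (E : ℝ) (a : V d) (j : ℕ) : Set (V d → Bool) :=
  {ω | ∀ w : V d, w ∈ Q a ((3 * j + 2) * (10 ^ k * L0)) →
        w ∉ Q a ((3 * j + 2) * (10 ^ k * L0) - 1) → GG J r L0 k ω E w}

lemma dep_Sh (J : (V d → Bool) → V d → Prop) {r L0 : ℕ} (hJ : ∀ a : V d, Dep (Q a L0) {ω | J ω a}) (hL0 : 1 ≤ L0) (k : ℕ) (E : ℝ) (a : V d)
    (j : ℕ) : Dep (Q a ((3 * j + 2) * (10 ^ k * L0) + 10 ^ k * L0) \
      Q a ((3 * j + 2) * (10 ^ k * L0) - (10 ^ k * L0 + 1))) (Sh J r L0 k E a j) := by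
  intro ω ω' h1 h2 w hw hw'
  refine dep_GG J hJ E k w ω ω' (fun x hx => h1 x ?_) (h2 w hw hw')
  rw [Finset.mem_sdiff]
  refine ⟨Q_trans hw hx, fun hc => hw' ?_⟩
  have := Q_trans hc (Q_symm.1 hx)
  refine Q_mono ?_ this
  have hL : 1 ≤ 10 ^ k * L0 := Nat.one_le_iff_ne_zero.mpr (by positivity)
  have : 2 * (10 ^ k * L0) ≤ (3 * j + 2) * (10 ^ k * L0) := Nat.mul_le_mul_right _ (by omega)
  omega

lemma prob_Sh (J : (V d → Bool) → V d → Prop) {r L0 : ℕ} (k : ℕ) (E : ℝ) (a : V d) {j : ℕ} (hL0 : 1 ≤ L0)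
    (hj : j < 3) {q : ℝ} (hq : ∀ a : V d, (PP d).real {ω | ¬ GG J r L0 k ω E a} ≤ q) :
    (PP d).real (Sh J r L0 k E a j)ᶜ ≤ (17 * (10 ^ k * L0 : ℕ)) ^ d * q := by
  have hq0 : 0 ≤ q := measureReal_nonneg.trans (hq a)
  have h1 : (Sh J r L0 k E a j)ᶜ ⊆
      ⋃ w ∈ Q a ((3 * j + 2) * (10 ^ k * L0)), {ω | ¬ GG J r L0 k ω E w} := by
    intro ω hω
    simp only [Sh, Set.mem_compl_iff, Set.mem_ofPred_eq, not_forall] at hω
    obtain ⟨w, hw, _, h⟩ := hω
    simp only [Set.mem_iUnion]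
    exact ⟨w, hw, h⟩
  calc (PP d).real (Sh J r L0 k E a j)ᶜ ≤ _ := measureReal_mono h1 (measure_ne_top _ _)
    _ ≤ ∑ w ∈ Q a ((3 * j + 2) * (10 ^ k * L0)), (PP d).real {ω | ¬ GG J r L0 k ω E w} :=
        measureReal_biUnion_finset_le _ _
    _ ≤ ∑ w ∈ Q a ((3 * j + 2) * (10 ^ k * L0)), q := Finset.sum_le_sum fun w _ => hq w
    _ = ((2 * ((3 * j + 2) * (10 ^ k * L0)) + 1) ^ d : ℕ) * q := by
        rw [Finset.sum_const, card_Q, nsmul_eq_mul]
    _ ≤ (17 * (10 ^ k * L0 : ℕ)) ^ d * q := by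
        have h8 : 2 * ((3 * j + 2) * (10 ^ k * L0)) + 1 ≤ 17 * (10 ^ k * L0) := by
          have : (3 * j + 2) * (10 ^ k * L0) ≤ 8 * (10 ^ k * L0) :=
            Nat.mul_le_mul_right _ (by omega)
          have hL : 1 ≤ 10 ^ k * L0 := Nat.one_le_iff_ne_zero.mpr (by positivity)
          omega
        have h9 : ((2 * ((3 * j + 2) * (10 ^ k * L0)) + 1 : ℕ) : ℝ) ≤ 17 * (10 ^ k * L0 : ℕ) := by
          exact_mod_cast h8
        rw [Nat.cast_pow]
        gcongr

/-- the probabilistic step -/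
lemma prob_GG {J : (V d → Bool) → V d → Prop} {r L0 : ℕ} (hJ : ∀ a : V d, Dep (Q a L0) {ω | J ω a}) (h1 : 1 ≤ L0)
    (hL0 : 6 * 17 ^ (2 * d) * 10 ^ (2 * d + 1) ≤ L0) {E : ℝ}
    (h0 : ∀ a : V d, (PP d).real {ω | ¬ J ω a} ≤ ((L0 : ℝ) ^ (2 * d + 1))⁻¹)
    (hres : ∀ k, (PP d).real {ω | ¬ RR r ω E (10 ^ k * L0) (0 : V d)}
      ≤ (((10 ^ k * L0 : ℕ) : ℝ) ^ (2 * d + 2))⁻¹) :
    ∀ (k : ℕ) (a : V d), (PP d).real {ω | ¬ GG J r L0 k ω E a}
      ≤ (((10 ^ k * L0 : ℕ) : ℝ) ^ (2 * d + 1))⁻¹ := by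
  intro k
  induction k with
  | zero => intro a; simpa [GG] using h0 a
  | succ k ih =>
    intro a
    have e10 : 10 ^ (k + 1) * L0 = 10 * (10 ^ k * L0) := by ring
    have hLL0 : L0 ≤ 10 ^ k * L0 := Nat.le_mul_of_pos_left _ (by positivity)
    have hL1 : 1 ≤ 10 ^ k * L0 := h1.trans hLL0
    rw [e10]
    refine le_trans ?_ (numeric_prob hL1 (hL0.trans hLL0))
    set B : ℕ → Set (V d → Bool) := fun j => (Sh J r L0 k E a j)ᶜ with hB
    have hsub : {ω : V d → Bool | ¬ GG J r L0 (k + 1) ω E a} ⊆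
        ((B 0 ∩ B 1) ∪ (B 0 ∩ B 2) ∪ (B 1 ∩ B 2)) ∪ {ω | ¬ RR r ω E (10 ^ k * L0) a} := by
      intro ω hω
      by_contra hc
      simp only [Set.mem_union, Set.mem_inter_iff, not_or, not_and, hB, Set.mem_compl_iff,
        not_not, Set.mem_ofPred_eq] at hc
      obtain ⟨⟨⟨c1, c2⟩, c3⟩, c4⟩ := hc
      apply hω
      refine ⟨c4, ?_⟩
      by_cases g0 : ω ∈ Sh J r L0 k E a 0
      · by_cases g1 : ω ∈ Sh J r L0 k E a 1
        · exact ⟨0, 1, by norm_num, by norm_num, g0, g1⟩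
        · exact ⟨0, 2, by norm_num, by norm_num, g0, c3 g1⟩
      · exact ⟨1, 2, by norm_num, by norm_num, c1 g0, c2 g0⟩
    have hind : ∀ i j : ℕ, i < j → j < 3 → (PP d).real (B i ∩ B j) ≤
        ((17 * ((10 ^ k * L0 : ℕ) : ℝ)) ^ d * (((10 ^ k * L0 : ℕ) : ℝ) ^ (2 * d + 1))⁻¹) ^ 2 := by
      intro i j hij hj
      have hdisj : Disjoint (Q a ((3 * i + 2) * (10 ^ k * L0) + 10 ^ k * L0) \
          Q a ((3 * i + 2) * (10 ^ k * L0) - (10 ^ k * L0 + 1)))
          (Q a ((3 * j + 2) * (10 ^ k * L0) + 10 ^ k * L0) \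
          Q a ((3 * j + 2) * (10 ^ k * L0) - (10 ^ k * L0 + 1))) := by
        rw [Finset.disjoint_left]
        intro x hx hx'
        rw [Finset.mem_sdiff] at hx hx'
        apply hx'.2
        refine Q_mono ?_ hx.1
        have : (3 * i + 2) * (10 ^ k * L0) + 3 * (10 ^ k * L0) ≤ (3 * j + 2) * (10 ^ k * L0) := by
          rw [← add_mul]; exact Nat.mul_le_mul_right _ (by omega)
        omega
      rw [(dep_Sh J hJ h1 k E a i).compl.indep (dep_Sh J hJ h1 k E a j).compl hdisj, sq]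
      have p1 := prob_Sh J k E a h1 (by omega : i < 3) ih
      have p2 := prob_Sh J k E a h1 hj ih
      exact mul_le_mul p1 p2 measureReal_nonneg (by positivity)
    calc (PP d).real {ω : V d → Bool | ¬ GG J r L0 (k + 1) ω E a}
        ≤ (PP d).real (((B 0 ∩ B 1) ∪ (B 0 ∩ B 2) ∪ (B 1 ∩ B 2))
            ∪ {ω | ¬ RR r ω E (10 ^ k * L0) a}) := measureReal_mono hsub (measure_ne_top _ _)
      _ ≤ (PP d).real ((B 0 ∩ B 1) ∪ (B 0 ∩ B 2) ∪ (B 1 ∩ B 2))
            + (PP d).real {ω | ¬ RR r ω E (10 ^ k * L0) a} := measureReal_union_le _ _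
      _ ≤ ((PP d).real ((B 0 ∩ B 1) ∪ (B 0 ∩ B 2)) + (PP d).real (B 1 ∩ B 2))
            + (PP d).real {ω | ¬ RR r ω E (10 ^ k * L0) a} := by
          gcongr; exact measureReal_union_le _ _
      _ ≤ (((PP d).real (B 0 ∩ B 1) + (PP d).real (B 0 ∩ B 2)) + (PP d).real (B 1 ∩ B 2))
            + (PP d).real {ω | ¬ RR r ω E (10 ^ k * L0) a} := by
          gcongr; exact measureReal_union_le _ _
      _ ≤ _ := by
          rw [real_not_RR]
          have q1 := hind 0 1 (by norm_num) (by norm_num)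
          have q2 := hind 0 2 (by norm_num) (by norm_num)
          have q3 := hind 1 2 (by norm_num) (by norm_num)
          have q4 := hres k
          linarith



/-- the event used for the decoupling at scale `k` -/
def FF (J : (V d → Bool) → V d → Prop) (r L0 k : ℕ) (ω : V d → Bool) (E : ℝ) : Prop :=
  ω ∈ Sh J r L0 k E 0 0 ∧ RR r ω E (10 ^ k * L0) (0 : V d)

lemma joint_FF (J : (V d → Bool) → V d → Prop) {r L0 : ℕ} (hJ : ∀ a : V d, Dep (Q a L0) {ω | J ω a}) (k : ℕ) :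
    MeasurableSet {p : (V d → Bool) × ℝ | FF J r L0 k p.1 p.2} := by
  have h1 : MeasurableSet {p : (V d → Bool) × ℝ | p.1 ∈ Sh J r L0 k p.2 0 0} := by
    have : {p : (V d → Bool) × ℝ | p.1 ∈ Sh J r L0 k p.2 0 0} =
      ⋂ (w : V d) (_ : w ∈ Q (0 : V d) ((3 * 0 + 2) * (10 ^ k * L0)))
        (_ : w ∉ Q (0 : V d) ((3 * 0 + 2) * (10 ^ k * L0) - 1)),
        {p : (V d → Bool) × ℝ | GG J r L0 k p.1 p.2 w} := by
      ext p
      simp only [Sh, Set.mem_ofPred_eq, Set.mem_iInter]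
    rw [this]
    exact MeasurableSet.iInter fun w => MeasurableSet.iInter fun _ => MeasurableSet.iInter fun _ =>
      joint_GG J hJ k w
  exact h1.inter (joint_RR r _ 0)

/-- Borel-Cantelli: for almost every configuration, for almost every good energy, the decoupling
event holds at all large scales. -/
lemma ae_ae_FF {J : (V d → Bool) → V d → Prop} {r L0 : ℕ} (hJ : ∀ a : V d, Dep (Q a L0) {ω | J ω a}) (h1 : 1 ≤ L0)
    (hL0 : 6 * 17 ^ (2 * d) * 10 ^ (2 * d + 1) ≤ L0)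
    (h0 : ∀ a : V d, (PP d).real {ω | ¬ J ω a} ≤ ((L0 : ℝ) ^ (2 * d + 1))⁻¹)
    {B : Set ℝ} (hB : MeasurableSet B) (hBX : B ⊆ XX d r L0) (hfin : volume B ≠ ∞) :
    ∀ᵐ ω ∂(PP d), ∀ᵐ E ∂(volume.restrict B), ∀ᶠ k in atTop, FF J r L0 k ω E := by
  have : IsFiniteMeasure (volume.restrict B) := ⟨by
    rw [Measure.restrict_apply_univ]; exact lt_of_le_of_ne le_top hfin⟩
  have key : ∀ᵐ p ∂((PP d).prod (volume.restrict B)), ∀ᶠ k in atTop, FF J r L0 k p.1 p.2 := by
    have hbc : ∑' k : ℕ, ((PP d).prod (volume.restrict B))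
        {p : (V d → Bool) × ℝ | ¬ FF J r L0 k p.1 p.2} ≠ ∞ := by
      have hb : ∀ k : ℕ, ((PP d).prod (volume.restrict B))
          {p : (V d → Bool) × ℝ | ¬ FF J r L0 k p.1 p.2}
          ≤ ENNReal.ofReal ((17 ^ d + 1) * (1 / 2) ^ k) * volume B := by
        intro k
        have hL1 : 1 ≤ 10 ^ k * L0 := Nat.one_le_iff_ne_zero.mpr (by positivity)
        have hm : MeasurableSet {p : (V d → Bool) × ℝ | ¬ FF J r L0 k p.1 p.2} :=
          (joint_FF J hJ k).compl
        rw [Measure.prod_apply_symm hm]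
        have hE : ∀ E ∈ B, (PP d) ((fun ω => (ω, E)) ⁻¹'
            {p : (V d → Bool) × ℝ | ¬ FF J r L0 k p.1 p.2})
            ≤ ENNReal.ofReal ((17 ^ d + 1) * (1 / 2) ^ k) := by
          intro E hE
          have hX := hBX hE
          have hG := prob_GG (r := r) hJ h1 hL0 h0 hX k
          have hS := prob_Sh J k E (0 : V d) h1 (by norm_num : 0 < 3) hG
          have hR := hX k
          have hsub : ((fun ω => (ω, E)) ⁻¹' {p : (V d → Bool) × ℝ | ¬ FF J r L0 k p.1 p.2}) ⊆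
              (Sh J r L0 k E 0 0)ᶜ ∪ {ω | ¬ RR r ω E (10 ^ k * L0) (0 : V d)} := by
            intro ω hω
            simp only [FF, Set.mem_preimage, Set.mem_ofPred_eq, not_and_or] at hω
            exact hω
          have h3 : (PP d).real ((fun ω => (ω, E)) ⁻¹'
              {p : (V d → Bool) × ℝ | ¬ FF J r L0 k p.1 p.2}) ≤ (17 ^ d + 1) * (1 / 2) ^ k := by
            refine (measureReal_mono hsub (measure_ne_top _ _)).trans
              ((measureReal_union_le _ _).trans ?_)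
            have hL' : (1 : ℝ) ≤ ((10 ^ k * L0 : ℕ) : ℝ) := by exact_mod_cast hL1
            have hk2 : ((10 ^ k * L0 : ℕ) : ℝ)⁻¹ ≤ (1 / 2) ^ k := by
              rw [one_div, inv_pow]
              apply inv_anti₀ (by positivity)
              have : 2 ^ k ≤ 10 ^ k * L0 :=
                (Nat.pow_le_pow_left (by norm_num) k).trans (Nat.le_mul_of_pos_right _ h1)
              exact_mod_cast this
            set L : ℝ := ((10 ^ k * L0 : ℕ) : ℝ) with hL
            have hLp : 0 < L := by linarith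
            have s1 : (17 * L) ^ d * (L ^ (2 * d + 1))⁻¹ ≤ 17 ^ d * L⁻¹ := by
              have e : L ^ (2 * d + 1) = L ^ d * L ^ d * L := by
                rw [← pow_add, ← pow_succ]; congr 1; ring
              rw [e, mul_pow, mul_inv, mul_inv, mul_assoc]
              apply mul_le_mul_of_nonneg_left _ (by positivity)
              rw [← mul_assoc, ← mul_assoc, mul_inv_cancel₀ (by positivity), one_mul]
              have : (L ^ d)⁻¹ ≤ 1 := inv_le_one_of_one_le₀ (one_le_pow₀ hL')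
              have h0' : 0 ≤ L⁻¹ := by positivity
              nlinarith
            have s2 : (L ^ (2 * d + 2))⁻¹ ≤ L⁻¹ := by
              apply inv_anti₀ hLp
              exact le_self_pow₀ hL' (by omega)
            have h17 : (0 : ℝ) ≤ 17 ^ d := by positivity
            calc (PP d).real (Sh J r L0 k E 0 0)ᶜ
                  + (PP d).real {ω | ¬ RR r ω E (10 ^ k * L0) (0 : V d)}
                ≤ 17 ^ d * L⁻¹ + L⁻¹ := add_le_add (hS.trans s1) (hR.trans s2)
              _ = (17 ^ d + 1) * L⁻¹ := by ring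
              _ ≤ _ := mul_le_mul_of_nonneg_left hk2 (by positivity)
          rw [← ENNReal.ofReal_toReal (measure_ne_top (PP d) _)]
          exact ENNReal.ofReal_le_ofReal h3
        calc ∫⁻ E in B, (PP d) ((fun ω => (ω, E)) ⁻¹'
              {p : (V d → Bool) × ℝ | ¬ FF J r L0 k p.1 p.2})
            ≤ ∫⁻ _ in B, ENNReal.ofReal ((17 ^ d + 1) * (1 / 2) ^ k) :=
              setLIntegral_mono measurable_const hE
          _ = _ := by rw [setLIntegral_const]
      refine ne_top_of_le_ne_top ?_ (ENNReal.tsum_le_tsum hb)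
      rw [ENNReal.tsum_mul_right]
      refine ENNReal.mul_ne_top ?_ hfin
      rw [← ENNReal.ofReal_tsum_of_nonneg (fun k => by positivity)
        (summable_geometric_two.mul_left _)]
      exact ENNReal.ofReal_ne_top
    have := ae_eventually_notMem hbc
    filter_upwards [this] with p hp
    filter_upwards [hp] with k hk
    simpa using hk
  exact Measure.ae_ae_of_ae_prod key



end Pool.Agent.H4R2.HD
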