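import Pool.Agent.H4R2.HD.Stubs

/-! Influences of one sign. -/

set_option autoImplicit false

namespace Pool.Agent.H4R2.HD.IN

open Pool.Agent.H12R2.And (V ee pot PP Q Dep Good)

theorem pot_update {d : ℕ} (z : V d) (ω : V d → Bool) (y : V d) :
    pot (Function.update ω z true) y = pot (Function.update ω z false) y + 2 * ind z y := by
  unfold pot ind
  by_cases h : y = z
  · subst h
    simp
    norm_num
  · simp [Function.update_of_ne h, h]

theorem abs_pot {d : ℕ} (ω : V d → Bool) (y : V d) : |pot ω y| ≤ 1 := by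
  unfold pot
  split_ifs <;> simp

theorem IN1 (hadd : S_BA_iter_add) (hsmul : S_BA_iter_smul) : S_IN1 := by
  intro d n z x ω
  have h1 : pot (Function.update ω z true) =
      fun y => pot (Function.update ω z false) y + (fun y => 2 * ind z y) y := by
    funext y
    exact pot_update z ω y
  rw [h1, hadd, hsmul]
  ring

theorem IN2 (hadd : S_BA_iter_add) (hsmul : S_BA_iter_smul) (hsum : S_BA_iter_sum)
    (hmono : S_BA_iter_mono) (hconst : S_BA_iter_const) (hGn : S_BA_Gn_abs) : S_IN2 := by
  intro d hd N z x ω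
  have hd0 : (0 : ℝ) < d := by exact_mod_cast hd
  have hind : ∀ y : V d, 0 ≤ ind z y := by
    intro y
    unfold ind
    split_ifs <;> norm_num
  have hnn : ∀ (n : ℕ) (y : V d), 0 ≤ (Av^[n] (ind z)) y := by
    intro n y
    have := hmono n (fun _ => 0) (ind z) hind y
    rwa [hconst hd] at this
  obtain ⟨p, hp⟩ : ∃ p, p = Function.update ω z true := ⟨_, rfl⟩
  obtain ⟨m, hm⟩ : ∃ m, m = Function.update ω z false := ⟨_, rfl⟩
  rw [← hp, ← hm]
  have hpm : ∀ y, pot p y = pot m y + 2 * ind z y := by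
    intro y
    rw [hp, hm]
    exact pot_update z ω y
  have hG : ∀ y, Gn N (pot p) y = Gn N (pot m) y + (∑ n ∈ Finset.range N, (Av^[n] (ind z)) y) / d := by
    intro y
    unfold Gn
    have h2 : ∀ n ∈ Finset.range N, (Av^[n] (pot p)) y = (Av^[n] (pot m)) y + 2 * (Av^[n] (ind z)) y := by
      intro n _
      have := IN1 hadd hsmul n z y ω
      rw [← hp, ← hm] at this
      linarith
    rw [Finset.sum_congr rfl h2, Finset.sum_add_distrib, ← Finset.mul_sum]
    field_simp
  obtain ⟨h, hh⟩ : ∃ h : V d → ℝ, h = fun y => (fun y => (N / d) * ind z y) y +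
      (fun y => (1 / d) * (fun y => ∑ n ∈ Finset.range N, (Av^[n] (ind z)) y) y) y := ⟨_, rfl⟩
  have hU : ∀ y, |Uu N p y - Uu N m y| ≤ h y := by
    intro y
    unfold Uu
    have e : pot p y * Gn N (pot p) y - 1 / (2 * (d : ℝ)) - (pot m y * Gn N (pot m) y - 1 / (2 * (d : ℝ)))
        = 2 * ind z y * Gn N (pot p) y + pot m y * ((∑ n ∈ Finset.range N, (Av^[n] (ind z)) y) / d) := by
      rw [hpm y]
      have := hG y
      have h3 : Gn N (pot m) y = Gn N (pot p) y -
          (∑ n ∈ Finset.range N, (Av^[n] (ind z)) y) / d := by linarith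
      rw [h3]
      ring
    rw [e]
    have a1 := hGn hd N (pot p) 1 (abs_pot p) y
    have a2 := abs_pot m y
    have a3 : 0 ≤ (∑ n ∈ Finset.range N, (Av^[n] (ind z)) y) / (d : ℝ) :=
      div_nonneg (Finset.sum_nonneg fun n _ => hnn n y) hd0.le
    have b1 : |2 * ind z y * Gn N (pot p) y| ≤ (N / d) * ind z y := by
      rw [abs_mul, abs_of_nonneg (by linarith [hind y] : 0 ≤ 2 * ind z y)]
      calc 2 * ind z y * |Gn N (pot p) y| ≤ 2 * ind z y * (N * 1 / (2 * d)) :=
            mul_le_mul_of_nonneg_left a1 (by linarith [hind y])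
        _ = (N / d) * ind z y := by field_simp
    have b2 : |pot m y * ((∑ n ∈ Finset.range N, (Av^[n] (ind z)) y) / d)| ≤
        (1 / d) * ∑ n ∈ Finset.range N, (Av^[n] (ind z)) y := by
      rw [abs_mul, abs_of_nonneg a3]
      calc |pot m y| * ((∑ n ∈ Finset.range N, (Av^[n] (ind z)) y) / d)
          ≤ 1 * ((∑ n ∈ Finset.range N, (Av^[n] (ind z)) y) / d) :=
            mul_le_mul_of_nonneg_right a2 a3
        _ = (1 / d) * ∑ n ∈ Finset.range N, (Av^[n] (ind z)) y := by ring
    rw [hh]
    exact (abs_add_le _ _).trans (add_le_add b1 b2)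
  have hAh : (Av^[N] h) x =
      (N / d) * (Av^[N] (ind z)) x + (1 / d) * ∑ n ∈ Finset.range N, (Av^[N + n] (ind z)) x := by
    rw [hh, hadd, hsmul, hsmul, hsum]
    have e2 : ∀ n ∈ Finset.range N, (Av^[N] (Av^[n] (ind z))) x = (Av^[N + n] (ind z)) x := by
      intro n _
      rw [Function.iterate_add_apply]
    have e3 := Finset.sum_congr rfl e2
    show N / (d : ℝ) * (Av^[N] (ind z)) x + 1 / (d : ℝ) *
      (∑ n ∈ Finset.range N, (Av^[N] (Av^[n] (ind z))) x) = _
    rw [e3]
  rw [← hAh, abs_le]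
  constructor
  · have h1 := hmono N (Uu N m) (fun y => Uu N p y + h y) (fun y => by
      have := (abs_le.1 (hU y)).1
      linarith) x
    rw [hadd] at h1
    linarith
  · have h1 := hmono N (Uu N p) (fun y => Uu N m y + h y) (fun y => by
      have := (abs_le.1 (hU y)).2
      linarith) x
    rw [hadd] at h1
    linarith

end Pool.Agent.H4R2.HD.IN
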