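import Pool.Agent.H4R2.HD.Stubs

set_option autoImplicit false

open scoped BigOperators ENNReal
open MeasureTheory Filter

namespace Pool.Agent.H4R2.HD.KB

open Pool.Agent.H12R2.And (V ee pot PP Q Dep Good)

/-- `ℓ¹` distance -/
def kk {d : ℕ} (z x : V d) : ℕ := ∑ i : Fin d, (x i - z i).natAbs

lemma kk_split {d : ℕ} (z x : V d) (i : Fin d) :
    kk z x = (x i - z i).natAbs + ∑ j ∈ Finset.univ.erase i, (x j - z j).natAbs := by
  unfold kk
  rw [Finset.add_sum_erase _ (fun j => (x j - z j).natAbs) (Finset.mem_univ i)]

lemma kk_add {d : ℕ} (z x : V d) (i : Fin d) :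
    kk z (x + ee i) = (x i + 1 - z i).natAbs + ∑ j ∈ Finset.univ.erase i, (x j - z j).natAbs := by
  rw [kk_split z _ i]
  congr 1
  · simp [ee]
  · refine Finset.sum_congr rfl fun j hj => ?_
    have hj' : j ≠ i := (Finset.mem_erase.mp hj).1
    simp [ee, Pi.single_eq_of_ne hj']

lemma kk_sub {d : ℕ} (z x : V d) (i : Fin d) :
    kk z (x - ee i) = (x i - 1 - z i).natAbs + ∑ j ∈ Finset.univ.erase i, (x j - z j).natAbs := by
  rw [kk_split z _ i]
  congr 1
  · simp [ee]
  · refine Finset.sum_congr rfl fun j hj => ?_
    have hj' : j ≠ i := (Finset.mem_erase.mp hj).1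
    simp [ee, Pi.single_eq_of_ne hj']

lemma kk_cases {d : ℕ} (z x : V d) (i : Fin d) :
    (x i = z i ∧ kk z (x + ee i) = kk z x + 1 ∧ kk z (x - ee i) = kk z x + 1) ∨
    (x i ≠ z i ∧ kk z (x + ee i) = kk z x + 1 ∧ kk z (x - ee i) + 1 = kk z x) ∨
    (x i ≠ z i ∧ kk z (x + ee i) + 1 = kk z x ∧ kk z (x - ee i) = kk z x + 1) := by
  rw [kk_add, kk_sub, kk_split z x i]
  rcases lt_trichotomy (x i) (z i) with h | h | h
  · right; right
    refine ⟨by omega, by omega, by omega⟩
  · left
    refine ⟨h, by omega, by omega⟩
  · right; left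
    refine ⟨by omega, by omega, by omega⟩

lemma card_le_kk {d : ℕ} (z x : V d) :
    ∑ i : Fin d, (if x i = z i then (0 : ℝ) else 1) ≤ kk z x := by
  unfold kk
  push_cast
  refine Finset.sum_le_sum fun i _ => ?_
  split_ifs with h
  · positivity
  · have : 1 ≤ (x i - z i).natAbs := by omega
    have h2 : (1 : ℝ) ≤ ((x i - z i).natAbs : ℝ) := by exact_mod_cast this
    simpa using h2

lemma main {d : ℕ} (hd : 1 ≤ d) (z : V d) (s : ℝ) (hs : 0 < s) (hsd : s ^ 2 * d = 1) (n : ℕ) :
    ∀ x : V d, 0 ≤ (Av^[n] (ind z)) x ∧ (n < kk z x → (Av^[n] (ind z)) x = 0) ∧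
      (Av^[n] (ind z)) x ≤ ((n + 1).factorial : ℝ) * s ^ (n + kk z x) := by
  have hd0 : (0 : ℝ) < d := by exact_mod_cast hd
  induction n with
  | zero =>
    intro x
    simp only [Function.iterate_zero, id_eq, ind]
    by_cases h : x = z
    · subst h
      have h0 : kk x x = 0 := by simp [kk]
      simp [h0]
    · simp only [h, if_false]
      refine ⟨le_rfl, fun _ => trivial, by positivity⟩
  | succ n ih =>
    intro x
    rw [Function.iterate_succ_apply']
    set F := Av^[n] (ind z) with hF
    refine ⟨?_, ?_, ?_⟩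
    · unfold Av
      refine div_nonneg (Finset.sum_nonneg fun i _ => add_nonneg (ih _).1 (ih _).1) (by positivity)
    · intro h
      unfold Av
      have : ∑ i : Fin d, (F (x + ee i) + F (x - ee i)) = 0 := by
        refine Finset.sum_eq_zero fun i _ => ?_
        have h1 : F (x + ee i) = 0 := (ih _).2.1 (by rcases kk_cases z x i with h | h | h <;> omega)
        have h2 : F (x - ee i) = 0 := (ih _).2.1 (by rcases kk_cases z x i with h | h | h <;> omega)
        rw [h1, h2, add_zero]
      rw [this, zero_div]
    · by_cases hk : n + 1 < kk z x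
      · have : Av F x = 0 := by
          unfold Av
          have : ∑ i : Fin d, (F (x + ee i) + F (x - ee i)) = 0 := by
            refine Finset.sum_eq_zero fun i _ => ?_
            have h1 : F (x + ee i) = 0 := (ih _).2.1 (by rcases kk_cases z x i with h | h | h <;> omega)
            have h2 : F (x - ee i) = 0 := (ih _).2.1 (by rcases kk_cases z x i with h | h | h <;> omega)
            rw [h1, h2, add_zero]
          rw [this, zero_div]
        rw [this]; positivity
      · push Not at hk
        set K := kk z x with hK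
        have key : ∀ i : Fin d, F (x + ee i) + F (x - ee i) ≤
            ((n + 1).factorial : ℝ) * s ^ (n + 1 + K) * (2 + (if x i = z i then (0 : ℝ) else 1) * d) := by
          intro i
          have hdown : ∀ m : ℕ, m + 1 = K → s ^ (n + m) = s ^ (n + 1 + K) * d := by
            intro m hm
            rw [← hm, show n + 1 + (m + 1) = (n + m) + 2 by ring, pow_add s (n + m) 2, mul_assoc, hsd, mul_one]
          have a1 := (ih (x + ee i)).2.2
          have a2 := (ih (x - ee i)).2.2
          have hf : (0 : ℝ) < ((n + 1).factorial : ℝ) * s ^ (n + 1 + K) := by positivity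
          rcases kk_cases z x i with ⟨h0, h1, h2⟩ | ⟨h0, h1, h2⟩ | ⟨h0, h1, h2⟩
          · rw [h1, show n + (K + 1) = n + 1 + K by ring] at a1
            rw [h2, show n + (K + 1) = n + 1 + K by ring] at a2
            simp only [h0, if_true]
            linarith
          · rw [h1, show n + (K + 1) = n + 1 + K by ring] at a1
            rw [hdown _ h2] at a2
            simp only [h0, if_false]
            nlinarith
          · rw [h2, show n + (K + 1) = n + 1 + K by ring] at a2
            rw [hdown _ h1] at a1
            simp only [h0, if_false]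
            nlinarith
        have hsum : ∑ i : Fin d, (F (x + ee i) + F (x - ee i)) ≤
            ((n + 1).factorial : ℝ) * s ^ (n + 1 + K) * (d * (2 + K)) := by
          refine (Finset.sum_le_sum fun i _ => key i).trans ?_
          rw [← Finset.mul_sum, Finset.sum_add_distrib, ← Finset.sum_mul]
          refine mul_le_mul_of_nonneg_left ?_ (by positivity)
          have := card_le_kk z x
          simp only [Finset.sum_const, Finset.card_univ, Fintype.card_fin, nsmul_eq_mul]
          nlinarith
        have : Av F x ≤ ((n + 1).factorial : ℝ) * s ^ (n + 1 + K) * ((2 + K) / 2) := by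
          unfold Av
          rw [div_le_iff₀ (by positivity)]
          refine hsum.trans (le_of_eq ?_)
          ring
        refine this.trans ?_
        have hK' : (K : ℝ) ≤ n + 1 := by exact_mod_cast hk
        rw [Nat.factorial_succ (n + 1)]
        push_cast
        have hf : (0 : ℝ) < ((n + 1).factorial : ℝ) * s ^ (n + 1 + K) := by positivity
        have h2 : ((2 : ℝ) + K) / 2 ≤ n + 1 + 1 := by linarith
        calc ((n + 1).factorial : ℝ) * s ^ (n + 1 + K) * ((2 + K) / 2)
            ≤ ((n + 1).factorial : ℝ) * s ^ (n + 1 + K) * (n + 1 + 1) :=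
              mul_le_mul_of_nonneg_left h2 hf.le
          _ = _ := by ring

set_option linter.dupNamespace false in
theorem KB : S_KB := by
  intro d hd n z x
  have hd0 : (1 : ℝ) ≤ d := by exact_mod_cast hd
  have hsq : 1 ≤ Real.sqrt d := by rw [Real.one_le_sqrt]; exact hd0
  have hs : 0 < (Real.sqrt d)⁻¹ := by positivity
  have hs1 : (Real.sqrt d)⁻¹ ≤ 1 := inv_le_one_of_one_le₀ hsq
  have hsd : ((Real.sqrt d)⁻¹) ^ 2 * d = 1 := by
    rw [inv_pow, Real.sq_sqrt (by linarith)]
    field_simp
  obtain ⟨h1, -, h3⟩ := main hd z _ hs hsd n x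
  refine ⟨h1, h3.trans ?_⟩
  refine mul_le_mul_of_nonneg_left ?_ (by positivity)
  exact pow_le_pow_of_le_one hs.le hs1 (by omega)

end Pool.Agent.H4R2.HD.KB
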