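import Pool.Agent.H4R2.HD.Stubs

/-!
# KS: the kernels of `Avⁿ` are sub-probabilities in the starting point (helper204)
-/

set_option autoImplicit false

open scoped BigOperators ENNReal
open MeasureTheory Filter

namespace Pool.Agent.H4R2.HD.KS

open Pool.Agent.H12R2.And (V ee pot PP Q Dep Good)

theorem KS (h1 : S_BA_iter_sum) (h2 : S_BA_iter_mono) (h3 : S_BA_iter_const) : S_KS := by
  intro d hd n F x
  have e1 : (Av^[n] (fun x => ∑ z ∈ F, ind z x)) x = ∑ z ∈ F, (Av^[n] (ind z)) x :=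
    congrFun (h1 F n (fun z => ind z)) x
  have e2 : (Av^[n] (fun _ : V d => (1 : ℝ))) x = 1 := h3 hd n 1 x
  have e3 : (Av^[n] (fun x => ∑ z ∈ F, ind z x)) x ≤ (Av^[n] (fun _ : V d => (1 : ℝ))) x := by
    refine h2 n _ _ (fun y => ?_) x
    classical
    have e4 : ∑ z ∈ F, ind z y = if y ∈ F then (1 : ℝ) else 0 := by
      rw [← Finset.sum_ite_eq F y (fun _ => (1 : ℝ))]
      refine Finset.sum_congr rfl fun z _ => ?_
      unfold ind
      congr
    show ∑ z ∈ F, ind z y ≤ 1
    rw [e4]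
    split_ifs
    · exact le_rfl
    · exact zero_le_one
  rw [← e1]
  exact e3.trans e2.le

end Pool.Agent.H4R2.HD.KS
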