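import Pool.Agent.H4R2.HD.Stubs

/-! Task MC (helper745): McDiarmid's inequality for fair signs, moment generating function. -/

set_option autoImplicit false

open scoped BigOperators ENNReal
open MeasureTheory Filter

namespace Pool.Agent.H4R2.HD.MC

open Pool.Agent.H12R2.And (V ee pot PP Q Dep Good)

theorem MC (hMR : S_MR) : S_MC := by
  intro d F
  classical
  induction F using Finset.induction_on with
  | empty =>
    intro f c hf _
    have h1 : f = fun _ => f (fun _ => true) := by
      funext ω
      exact hf _ _ (by simp)
    rw [h1]
    simp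
  | insert z F hz ih =>
    intro f c hf hc
    set g : (V d → Bool) → ℝ := fun ω =>
      (f (Function.update ω z true) + f (Function.update ω z false)) / 2 with hgdef
    have hfu : ∀ (b : Bool) (ω ω' : V d → Bool), (∀ x ∈ F, ω x = ω' x) →
        f (Function.update ω z b) = f (Function.update ω' z b) := by
      intro b ω ω' h
      refine hf _ _ fun x hx => ?_
      by_cases hxz : x = z
      · rw [hxz, Function.update_self, Function.update_self]
      · rw [Function.update_of_ne hxz, Function.update_of_ne hxz]
        rcases Finset.mem_insert.mp hx with h1 | h1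
        · exact absurd h1 hxz
        · exact h x h1
    have hg : ∀ ω ω' : V d → Bool, (∀ x ∈ F, ω x = ω' x) → g ω = g ω' := by
      intro ω ω' h
      rw [hgdef]
      simp only
      rw [hfu true ω ω' h, hfu false ω ω' h]
    have hgc : ∀ w ∈ F, ∀ ω : V d → Bool,
        |g (Function.update ω w true) - g (Function.update ω w false)| ≤ c w := by
      intro w hw ω
      have hwz : w ≠ z := fun h => hz (h ▸ hw)
      have h1 := hc w (Finset.mem_insert_of_mem hw) (Function.update ω z true)
      have h2 := hc w (Finset.mem_insert_of_mem hw) (Function.update ω z false)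
      have e1 : ∀ b b' : Bool, Function.update (Function.update ω w b) z b' =
          Function.update (Function.update ω z b') w b := fun b b' =>
        Function.update_comm hwz b b' ω
      rw [hgdef]
      simp only
      rw [e1, e1, e1, e1]
      rw [abs_le] at h1 h2 ⊢
      constructor <;> linarith [h1.1, h1.2, h2.1, h2.2]
    set a : ℝ := ∫ ω', f ω' ∂(PP d) with ha
    have hag : a = ∫ ω', g ω' ∂(PP d) := (hMR (insert z F) f hf z).2
    have hih := ih g c hg hgc
    rw [← hag] at hih
    set e : (V d → Bool) → ℝ := fun ω => Real.exp (f ω - a) with hedef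
    have he : ∀ ω ω' : V d → Bool, (∀ x ∈ insert z F, ω x = ω' x) → e ω = e ω' := by
      intro ω ω' h
      rw [hedef]
      simp only
      rw [hf ω ω' h]
    have h3 : ∫ ω, e ω ∂(PP d) =
        ∫ ω, (e (Function.update ω z true) + e (Function.update ω z false)) / 2 ∂(PP d) :=
      (hMR (insert z F) e he z).2
    have hint1 : Integrable
        (fun ω => (e (Function.update ω z true) + e (Function.update ω z false)) / 2) (PP d) := by
      refine (hMR F _ ?_ z).1
      intro ω ω' h
      rw [hedef]
      simp only
      rw [hfu true ω ω' h, hfu false ω ω' h]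
    have hint2 : Integrable (fun ω => Real.exp (g ω - a)) (PP d) := by
      refine (hMR F _ ?_ z).1
      intro ω ω' h
      show Real.exp (g ω - a) = Real.exp (g ω' - a)
      rw [hg ω ω' h]
    have hpt : ∀ ω : V d → Bool,
        (e (Function.update ω z true) + e (Function.update ω z false)) / 2 ≤
          Real.exp (c z ^ 2 / 8) * Real.exp (g ω - a) := by
      intro ω
      have h4 := hc z (Finset.mem_insert_self z F) ω
      set u := f (Function.update ω z true) with hu
      set v := f (Function.update ω z false) with hv
      have hgω : g ω = (u + v) / 2 := rfl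
      have he1 : e (Function.update ω z true) = Real.exp (u - a) := rfl
      have he2 : e (Function.update ω z false) = Real.exp (v - a) := rfl
      rw [he1, he2, hgω]
      have h5 : (Real.exp (u - a) + Real.exp (v - a)) / 2 =
          Real.exp ((u + v) / 2 - a) * Real.cosh ((u - v) / 2) := by
        rw [Real.cosh_eq]
        have h6 : Real.exp (u - a) = Real.exp ((u + v) / 2 - a) * Real.exp ((u - v) / 2) := by
          rw [← Real.exp_add]; congr 1; ring
        have h7 : Real.exp (v - a) = Real.exp ((u + v) / 2 - a) * Real.exp (-((u - v) / 2)) := by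
          rw [← Real.exp_add]; congr 1; ring
        rw [h6, h7]; ring
      rw [h5, mul_comm]
      refine mul_le_mul_of_nonneg_right ?_ (Real.exp_pos _).le
      refine (Real.cosh_le_exp_half_sq _).trans (Real.exp_le_exp.mpr ?_)
      have h8 : (u - v) ^ 2 ≤ c z ^ 2 := by
        rw [abs_le] at h4
        nlinarith [h4.1, h4.2]
      have h9 : ((u - v) / 2) ^ 2 / 2 = (u - v) ^ 2 / 8 := by ring
      rw [h9]
      linarith
    calc ∫ ω, e ω ∂(PP d)
        = ∫ ω, (e (Function.update ω z true) + e (Function.update ω z false)) / 2 ∂(PP d) := h3
      _ ≤ ∫ ω, Real.exp (c z ^ 2 / 8) * Real.exp (g ω - a) ∂(PP d) :=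
          integral_mono hint1 (hint2.const_mul _) hpt
      _ = Real.exp (c z ^ 2 / 8) * ∫ ω, Real.exp (g ω - a) ∂(PP d) := integral_const_mul _ _
      _ ≤ Real.exp (c z ^ 2 / 8) * Real.exp ((∑ z ∈ F, c z ^ 2) / 8) :=
          mul_le_mul_of_nonneg_left hih (Real.exp_pos _).le
      _ = Real.exp ((∑ z ∈ insert z F, c z ^ 2) / 8) := by
          rw [← Real.exp_add, Finset.sum_insert hz]
          congr 1
          ring

end Pool.Agent.H4R2.HD.MC
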