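import Pool.Agent.H4R2.HD.KB

set_option autoImplicit false

open scoped BigOperators ENNReal
open MeasureTheory Filter

namespace Pool.Agent.H4R2.HD.ME

open Pool.Agent.H12R2.And (V ee pot PP Q Dep Good)

lemma Av_app {d : ℕ} (f : V d → ℝ) (x : V d) :
    Av f x = (∑ i : Fin d, (f (x + ee i) + f (x - ee i))) / (2 * d) := rfl

lemma Av_int {d : ℕ} (g : (V d → Bool) → V d → ℝ) (hg : ∀ y, Integrable (fun ω => g ω y) (PP d))
    (n : ℕ) : ∀ x : V d, Integrable (fun ω => (Av^[n] (g ω)) x) (PP d) ∧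
      ∫ ω, (Av^[n] (g ω)) x ∂(PP d) = (Av^[n] (fun y => ∫ ω, g ω y ∂(PP d))) x := by
  induction n with
  | zero => intro x; exact ⟨hg x, rfl⟩
  | succ n ih =>
    intro x
    simp only [Function.iterate_succ_apply', Av_app]
    have h1 : ∀ i : Fin d, Integrable (fun ω => (Av^[n] (g ω)) (x + ee i) + (Av^[n] (g ω)) (x - ee i)) (PP d) :=
      fun i => (ih _).1.add (ih _).1
    constructor
    · exact (integrable_finsetSum _ fun i _ => h1 i).div_const _
    · rw [integral_div, integral_finsetSum _ fun i _ => h1 i]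
      congr 1
      refine Finset.sum_congr rfl fun i _ => ?_
      rw [integral_add (ih _).1 (ih _).1, (ih _).2, (ih _).2]

lemma Av_sub {d : ℕ} (n : ℕ) (f g h : V d → ℝ) (c : ℝ) (hh : ∀ x, f x - g x = c * h x) :
    ∀ x, (Av^[n] f) x - (Av^[n] g) x = c * (Av^[n] h) x := by
  induction n with
  | zero => exact hh
  | succ n ih =>
    intro x
    simp only [Function.iterate_succ_apply', Av_app]
    rw [← sub_div, ← mul_div_assoc, ← Finset.sum_sub_distrib, Finset.mul_sum]
    congr 1
    refine Finset.sum_congr rfl fun i _ => ?_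
    have h1 := ih (x + ee i)
    have h2 := ih (x - ee i)
    linarith

lemma Av_loc {d : ℕ} (n : ℕ) : ∀ x : V d, ∃ F : Finset (V d), ∀ ω ω' : V d → Bool,
    (∀ y ∈ F, ω y = ω' y) → (Av^[n] (pot ω)) x = (Av^[n] (pot ω')) x := by
  classical
  induction n with
  | zero =>
    intro x
    refine ⟨{x}, fun ω ω' h => ?_⟩
    have := h x (by simp)
    simp [pot, this]
  | succ n ih =>
    intro x
    choose F hF using ih
    refine ⟨Finset.univ.biUnion fun i : Fin d => F (x + ee i) ∪ F (x - ee i), fun ω ω' h => ?_⟩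
    simp only [Function.iterate_succ_apply', Av_app]
    congr 1
    refine Finset.sum_congr rfl fun i _ => ?_
    have h1 := hF (x + ee i) ω ω' (fun y hy => h y (by
      rw [Finset.mem_biUnion]; exact ⟨i, Finset.mem_univ _, Finset.mem_union_left _ hy⟩))
    have h2 := hF (x - ee i) ω ω' (fun y hy => h y (by
      rw [Finset.mem_biUnion]; exact ⟨i, Finset.mem_univ _, Finset.mem_union_right _ hy⟩))
    rw [h1, h2]

lemma Av_bound {d : ℕ} (hd : 1 ≤ d) (n : ℕ) (f : V d → ℝ) (M : ℝ) (hf : ∀ x, |f x| ≤ M) :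
    ∀ x, |(Av^[n] f) x| ≤ M := by
  have hd0 : (0 : ℝ) < d := by exact_mod_cast hd
  induction n with
  | zero => exact hf
  | succ n ih =>
    intro x
    rw [Function.iterate_succ_apply']
    set F := Av^[n] f with hF
    unfold Av
    rw [abs_div, abs_of_pos (show (0 : ℝ) < 2 * d by positivity), div_le_iff₀ (by positivity)]
    refine (Finset.abs_sum_le_sum_abs _ _).trans ?_
    have : ∀ i : Fin d, |F (x + ee i) + F (x - ee i)| ≤ M + M := fun i =>
      (abs_add_le _ _).trans (add_le_add (ih _) (ih _))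
    refine (Finset.sum_le_sum fun i _ => this i).trans (le_of_eq ?_)
    simp only [Finset.sum_const, Finset.card_univ, Fintype.card_fin, nsmul_eq_mul]
    ring

lemma pot_true {d : ℕ} (ω : V d → Bool) (x : V d) : pot (Function.update ω x true) x = 1 := by
  simp [pot]

lemma pot_false {d : ℕ} (ω : V d → Bool) (x : V d) : pot (Function.update ω x false) x = -1 := by
  simp [pot]

lemma pot_upd {d : ℕ} (ω : V d → Bool) (z x : V d) :
    pot (Function.update ω z true) x - pot (Function.update ω z false) x = 2 * ind z x := by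
  by_cases h : x = z
  · subst h; simp [pot, ind]; norm_num
  · simp [pot, ind, h]

theorem ME1 (hMR : S_MR) : S_ME1 := by
  intro d n x
  have h0 : ∀ y : V d, Integrable (fun ω => pot ω y) (PP d) ∧ ∫ ω, pot ω y ∂(PP d) = 0 := by
    intro y
    obtain ⟨h1, h2⟩ := hMR {y} (fun ω => pot ω y) (fun ω ω' h => by
      have := h y (by simp)
      simp [pot, this]) y
    refine ⟨h1, h2.trans ?_⟩
    simp [pot_true, pot_false]
  obtain ⟨-, h⟩ := Av_int (fun ω => pot ω) (fun y => (h0 y).1) n x
  rw [h]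
  simp only [(h0 _).2]
  clear h
  induction n generalizing x with
  | zero => rfl
  | succ n ih =>
    rw [Function.iterate_succ_apply', Av_app]
    simp [ih]

theorem cov (hMR : S_MR) {d : ℕ} (n : ℕ) (x : V d) :
    Integrable (fun ω => pot ω x * (Av^[n] (pot ω)) x) (PP d) ∧
    ∫ ω, pot ω x * (Av^[n] (pot ω)) x ∂(PP d) = (Av^[n] (ind x)) x := by
  classical
  obtain ⟨F, hF⟩ := Av_loc n x
  obtain ⟨h1, h2⟩ := hMR (insert x F) (fun ω => pot ω x * (Av^[n] (pot ω)) x) (fun ω ω' h => by
    have e1 := h x (Finset.mem_insert_self _ _)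
    have e2 := hF ω ω' (fun y hy => h y (Finset.mem_insert_of_mem hy))
    simp only [e2]
    simp [pot, e1]) x
  refine ⟨h1, h2.trans ?_⟩
  have : ∀ ω : V d → Bool, (pot (Function.update ω x true) x * (Av^[n] (pot (Function.update ω x true))) x +
      pot (Function.update ω x false) x * (Av^[n] (pot (Function.update ω x false))) x) / 2 =
      (Av^[n] (ind x)) x := by
    intro ω
    have := Av_sub n _ _ _ 2 (pot_upd ω x) x
    rw [pot_true, pot_false]
    linarith
  simp only [this]
  simp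

theorem ME2 (hMR : S_MR) : S_ME2 := by
  intro d hd N x hN
  have hd0 : (1 : ℝ) ≤ d := by exact_mod_cast hd
  have hsq : 1 ≤ Real.sqrt d := by rw [Real.one_le_sqrt]; exact hd0
  have hs : 0 < (Real.sqrt d)⁻¹ := by positivity
  have hs1 : (Real.sqrt d)⁻¹ ≤ 1 := inv_le_one_of_one_le₀ hsq
  have hU : ∀ y : V d, Integrable (fun ω => Uu N ω y) (PP d) ∧
      ∫ ω, Uu N ω y ∂(PP d) = (∑ n ∈ Finset.range N, (Av^[n] (ind y)) y) / (2 * d) - 1 / (2 * d) := by
    intro y
    have e : ∀ ω : V d → Bool, Uu N ω y =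
        (∑ n ∈ Finset.range N, pot ω y * (Av^[n] (pot ω)) y) / (2 * d) - 1 / (2 * d) := by
      intro ω
      unfold Uu Gn
      rw [← Finset.mul_sum, mul_div_assoc]
    simp only [e]
    have hI : Integrable (fun ω => (∑ n ∈ Finset.range N, pot ω y * (Av^[n] (pot ω)) y) / (2 * (d : ℝ))) (PP d) :=
      (integrable_finsetSum _ fun n _ => (cov hMR n y).1).div_const _
    refine ⟨hI.sub (integrable_const _), ?_⟩
    rw [integral_sub hI (integrable_const _), integral_div,
      integral_finsetSum _ fun n _ => (cov hMR n y).1]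
    simp [(cov hMR _ y).2]
  have hB : ∀ y : V d, |∫ ω, Uu N ω y ∂(PP d)| ≤
      (1 / (2 * d)) * (N * ((N + 1).factorial : ℝ) * (Real.sqrt d)⁻¹) := by
    intro y
    rw [(hU y).2]
    obtain ⟨M, rfl⟩ : ∃ M, N = M + 1 := ⟨N - 1, by omega⟩
    rw [Finset.sum_range_succ']
    have hi : (Av^[0] (ind y)) y = 1 := by simp [ind]
    rw [hi]
    have e : (∑ n ∈ Finset.range M, (Av^[n + 1] (ind y)) y + 1) / (2 * (d : ℝ)) - 1 / (2 * d) =
        (1 / (2 * d)) * ∑ n ∈ Finset.range M, (Av^[n + 1] (ind y)) y := by ring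
    rw [e]
    have hnn : 0 ≤ ∑ n ∈ Finset.range M, (Av^[n + 1] (ind y)) y :=
      Finset.sum_nonneg fun n _ => (KB.KB hd (n + 1) y y).1
    rw [abs_of_nonneg (by positivity)]
    refine mul_le_mul_of_nonneg_left ?_ (by positivity)
    have hterm : ∀ n ∈ Finset.range M, (Av^[n + 1] (ind y)) y ≤
        ((M + 1 + 1).factorial : ℝ) * (Real.sqrt d)⁻¹ := by
      intro n hn
      rw [Finset.mem_range] at hn
      refine (KB.KB hd (n + 1) y y).2.trans ?_
      refine mul_le_mul ?_ ?_ (by positivity) (by positivity)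
      · exact_mod_cast Nat.factorial_le (by omega)
      · rw [pow_succ]
        exact mul_le_of_le_one_left hs.le (pow_le_one₀ hs.le hs1)
    refine (Finset.sum_le_sum hterm).trans ?_
    simp only [Finset.sum_const, Finset.card_range, nsmul_eq_mul]
    push_cast
    have : 0 ≤ ((M + 1 + 1).factorial : ℝ) * (Real.sqrt d)⁻¹ := by positivity
    nlinarith
  obtain ⟨-, h⟩ := Av_int (fun ω => Uu N ω) (fun y => (hU y).1) N x
  rw [h]
  exact Av_bound hd N _ _ hB x

end Pool.Agent.H4R2.HD.ME
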