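import Pool.Agent.H4R2.HD.Stubs

set_option autoImplicit false

open scoped BigOperators ENNReal
open MeasureTheory Filter

namespace Pool.Agent.H4R2.HD.MR

open Pool.Agent.H12R2.And (V ee pot PP Q Dep Good)

/-- extension by `false` -/
noncomputable def extB {d : ℕ} (F : Finset (V d)) (c : F → Bool) (x : V d) : Bool :=
  open Classical in if h : x ∈ F then c ⟨x, h⟩ else false

lemma eq_comp {d : ℕ} (F : Finset (V d)) (f : (V d → Bool) → ℝ)
    (hf : ∀ ω ω' : V d → Bool, (∀ x ∈ F, ω x = ω' x) → f ω = f ω') :
    f = (fun c : F → Bool => f (extB F c)) ∘ (fun (ω : V d → Bool) (x : F) => ω x) := by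
  funext ω
  apply hf
  intro x hx
  simp [extB, hx]

lemma measurable_dep {d : ℕ} (F : Finset (V d)) (f : (V d → Bool) → ℝ)
    (hf : ∀ ω ω' : V d → Bool, (∀ x ∈ F, ω x = ω' x) → f ω = f ω') : Measurable f := by
  rw [eq_comp F f hf]
  have h1 : Measurable (fun (ω : V d → Bool) (x : F) => ω x) := by fun_prop
  exact Measurable.of_discrete.comp h1

lemma bounded_dep {d : ℕ} (F : Finset (V d)) (f : (V d → Bool) → ℝ)
    (hf : ∀ ω ω' : V d → Bool, (∀ x ∈ F, ω x = ω' x) → f ω = f ω') :
    ∃ C : ℝ, ∀ ω, ‖f ω‖ ≤ C := by
  refine ⟨∑ c : F → Bool, ‖f (extB F c)‖, fun ω => ?_⟩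
  have h1 : f ω = f (extB F (fun x : F => ω x)) := congrFun (eq_comp F f hf) ω
  rw [h1]
  exact Finset.single_le_sum (f := fun c : F → Bool => ‖f (extB F c)‖)
    (fun c _ => norm_nonneg _) (Finset.mem_univ (fun x : F => ω x))

lemma integrable_dep {d : ℕ} (F : Finset (V d)) (f : (V d → Bool) → ℝ)
    (hf : ∀ ω ω' : V d → Bool, (∀ x ∈ F, ω x = ω' x) → f ω = f ω') : Integrable f (PP d) := by
  obtain ⟨C, hC⟩ := bounded_dep F f hf
  exact Integrable.of_bound (measurable_dep F f hf).aestronglyMeasurable C
    (Filter.Eventually.of_forall hC)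

/-- flipping the coordinate `z` -/
noncomputable def flipz {d : ℕ} (z : V d) (ω : V d → Bool) : V d → Bool :=
  fun x => (if x = z then Bool.not else id) (ω x)

lemma measurable_flipz {d : ℕ} (z : V d) : Measurable (flipz z) := by
  refine measurable_pi_lambda _ (fun x => ?_)
  exact Measurable.of_discrete.comp (measurable_pi_apply x)

lemma coin_not : ((PMF.uniformOfFintype Bool).toMeasure).map Bool.not =
    (PMF.uniformOfFintype Bool).toMeasure := by
  refine Measure.ext_of_singleton (fun b => ?_)
  rw [Measure.map_apply Measurable.of_discrete (measurableSet_singleton b)]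
  have h1 : Bool.not ⁻¹' {b} = {!b} := by
    ext c; cases b <;> cases c <;> simp
  rw [h1, PMF.toMeasure_apply_singleton _ _ (measurableSet_singleton _),
    PMF.toMeasure_apply_singleton _ _ (measurableSet_singleton _),
    PMF.uniformOfFintype_apply, PMF.uniformOfFintype_apply]

lemma map_flipz {d : ℕ} (z : V d) : (PP d).map (flipz z) = PP d := by
  have h1 := Measure.infinitePi_map_pi
    (μ := fun _ : V d => (PMF.uniformOfFintype Bool).toMeasure)
    (f := fun (x : V d) => if x = z then Bool.not else id) (fun _ => Measurable.of_discrete)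
  have h2 : (fun x : V d => ((PMF.uniformOfFintype Bool).toMeasure).map
      (if x = z then Bool.not else id)) = fun _ => (PMF.uniformOfFintype Bool).toMeasure := by
    funext x
    by_cases hx : x = z
    · rw [if_pos hx]; exact coin_not
    · rw [if_neg hx]; exact Measure.map_id
  rw [h2] at h1
  exact h1

theorem MR : S_MR := by
  intro d F f hf z
  have hint := integrable_dep F f hf
  refine ⟨hint, ?_⟩
  have hmeas := measurable_dep F f hf
  have hint2 : Integrable (fun ω => f (flipz z ω)) (PP d) := by
    have h1 : Integrable f ((PP d).map (flipz z)) := by rw [map_flipz]; exact hint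
    exact h1.comp_measurable (measurable_flipz z)
  have h1 : ∫ ω, f ω ∂(PP d) = ∫ ω, f (flipz z ω) ∂(PP d) := by
    conv_lhs => rw [← map_flipz z]
    exact integral_map (measurable_flipz z).aemeasurable
      (by rw [map_flipz]; exact hmeas.aestronglyMeasurable)
  have h2 : ∀ ω : V d → Bool, (f (Function.update ω z true) + f (Function.update ω z false)) / 2 =
      (f ω + f (flipz z ω)) / 2 := by
    intro ω
    have h3 : flipz z ω = Function.update ω z (!(ω z)) := by
      funext x
      by_cases hx : x = z
      · subst hx; simp [flipz]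
      · simp [flipz, hx]
    rw [h3]
    cases hω : ω z
    · have h4 : Function.update ω z false = ω := by
        conv_lhs => rw [← hω]
        exact Function.update_eq_self z ω
      rw [h4]
      simp only [Bool.not_false]
      ring
    · have h4 : Function.update ω z true = ω := by
        conv_lhs => rw [← hω]
        exact Function.update_eq_self z ω
      rw [h4]
      simp only [Bool.not_true]
  rw [integral_congr_ae (Filter.Eventually.of_forall h2), integral_div,
    integral_add hint hint2, ← h1]
  ring

end Pool.Agent.H4R2.HD.MR
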