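import Pool.Agent.H4R2.HD.Stubs

set_option autoImplicit false

open scoped BigOperators ENNReal
open MeasureTheory Filter

namespace Pool.Agent.H4R2.HD.MT

open Pool.Agent.H12R2.And (V ee pot PP Q Dep Good)

theorem one (hMR : S_MR) (hMC : S_MC) {d : ℕ} (F : Finset (V d)) (f : (V d → Bool) → ℝ)
    (c : V d → ℝ) (S t : ℝ)
    (hloc : ∀ ω ω' : V d → Bool, (∀ x ∈ F, ω x = ω' x) → f ω = f ω')
    (hinf : ∀ z ∈ F, ∀ ω : V d → Bool,
      |f (Function.update ω z true) - f (Function.update ω z false)| ≤ c z)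
    (hS : ∑ z ∈ F, c z ^ 2 ≤ S) (hS0 : 0 < S) (ht : 0 ≤ t) :
    (PP d).real {ω | t < f ω - ∫ ω', f ω' ∂(PP d)} ≤ Real.exp (-(2 * t ^ 2 / S)) := by
  set a := ∫ ω', f ω' ∂(PP d) with ha
  set l : ℝ := 4 * t / S with hl
  have hl0 : 0 ≤ l := by positivity
  have hloc2 : ∀ ω ω' : V d → Bool, (∀ x ∈ F, ω x = ω' x) →
      Real.exp (l * (f ω - a)) = Real.exp (l * (f ω' - a)) := by
    intro ω ω' h; rw [hloc ω ω' h]
  have hint : Integrable (fun ω => Real.exp (l * (f ω - a))) (PP d) :=
    (hMR F (fun ω => Real.exp (l * (f ω - a))) hloc2 0).1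
  have hmc := hMC F (fun ω => l * f ω) (fun z => l * c z)
    (by intro ω ω' h; simp only [hloc ω ω' h])
    (by
      intro z hz ω
      have e : l * f (Function.update ω z true) - l * f (Function.update ω z false) =
        l * (f (Function.update ω z true) - f (Function.update ω z false)) := by ring
      show |l * f (Function.update ω z true) - l * f (Function.update ω z false)| ≤ l * c z
      rw [e, abs_mul, abs_of_nonneg hl0]
      exact mul_le_mul_of_nonneg_left (hinf z hz ω) hl0)
  have hmean : ∫ ω', l * f ω' ∂(PP d) = l * a := integral_const_mul _ _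
  simp only [hmean] at hmc
  have hmc2 : ∫ ω, Real.exp (l * (f ω - a)) ∂(PP d) ≤ Real.exp (2 * t ^ 2 / S) := by
    have e1 : (fun ω => Real.exp (l * (f ω - a))) = fun ω => Real.exp (l * f ω - l * a) := by
      funext ω; rw [mul_sub]
    rw [e1]
    refine hmc.trans (Real.exp_le_exp.2 ?_)
    have e2 : ∑ z ∈ F, (l * c z) ^ 2 = l ^ 2 * ∑ z ∈ F, c z ^ 2 := by
      rw [Finset.mul_sum]; exact Finset.sum_congr rfl fun z _ => by ring
    rw [e2]
    have e3 : l ^ 2 * ∑ z ∈ F, c z ^ 2 ≤ l ^ 2 * S := mul_le_mul_of_nonneg_left hS (by positivity)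
    have e4 : l ^ 2 * S / 8 = 2 * t ^ 2 / S := by
      rw [hl]; field_simp; ring
    linarith
  have hmk := mul_meas_ge_le_integral_of_nonneg (μ := PP d)
    (f := fun ω => Real.exp (l * (f ω - a))) (Filter.Eventually.of_forall fun ω => (Real.exp_pos _).le) hint
    (Real.exp (l * t))
  have hsub : {ω | t < f ω - a} ⊆ {ω | Real.exp (l * t) ≤ Real.exp (l * (f ω - a))} := by
    intro ω hω
    simp only [Set.mem_setOf_eq] at hω ⊢
    exact Real.exp_le_exp.2 (mul_le_mul_of_nonneg_left hω.le hl0)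
  have hmono : (PP d).real {ω | t < f ω - a} ≤
      (PP d).real {ω | Real.exp (l * t) ≤ Real.exp (l * (f ω - a))} := measureReal_mono hsub
  have h1 : Real.exp (l * t) * (PP d).real {ω | t < f ω - a} ≤ Real.exp (2 * t ^ 2 / S) :=
    (mul_le_mul_of_nonneg_left hmono (Real.exp_pos _).le).trans (hmk.trans hmc2)
  have e5 : l * t = 2 * (2 * t ^ 2 / S) := by rw [hl]; ring
  rw [e5] at h1
  have h2 : (PP d).real {ω | t < f ω - a} ≤
      Real.exp (2 * t ^ 2 / S) / Real.exp (2 * (2 * t ^ 2 / S)) := by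
    rw [le_div_iff₀ (Real.exp_pos _)]; linarith
  refine h2.trans (le_of_eq ?_)
  rw [← Real.exp_sub]; congr 1; ring

theorem MT (hMR : S_MR) (hMC : S_MC) : S_MT := by
  intro d F f c S t hloc hinf hS hS0 ht
  have h1 := one hMR hMC F f c S t hloc hinf hS hS0 ht
  have h2 := one hMR hMC F (fun ω => -f ω) c S t
    (by intro ω ω' h; simp only [hloc ω ω' h])
    (by
      intro z hz ω
      have e : -f (Function.update ω z true) - -f (Function.update ω z false) =
        -(f (Function.update ω z true) - f (Function.update ω z false)) := by ring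
      show |-f (Function.update ω z true) - -f (Function.update ω z false)| ≤ c z
      rw [e, abs_neg]
      exact hinf z hz ω) hS hS0 ht
  simp only [integral_neg] at h2
  set a := ∫ ω', f ω' ∂(PP d) with ha
  have hsub : {ω | t < |f ω - a|} ⊆ {ω | t < f ω - a} ∪ {ω | t < -f ω - -a} := by
    intro ω hω
    simp only [Set.mem_setOf_eq, Set.mem_union] at hω ⊢
    rcases lt_abs.1 hω with h | h
    · exact Or.inl h
    · right; linarith
  calc (PP d).real {ω | t < |f ω - a|}
      ≤ (PP d).real ({ω | t < f ω - a} ∪ {ω | t < -f ω - -a}) := measureReal_mono hsub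
    _ ≤ (PP d).real {ω | t < f ω - a} + (PP d).real {ω | t < -f ω - -a} :=
        measureReal_union_le _ _
    _ ≤ Real.exp (-(2 * t ^ 2 / S)) + Real.exp (-(2 * t ^ 2 / S)) := add_le_add h1 h2
    _ = 2 * Real.exp (-(2 * t ^ 2 / S)) := by ring

end Pool.Agent.H4R2.HD.MT
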