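import Pool.Agent.H4R2.HD.DJ

set_option autoImplicit false

open scoped BigOperators ENNReal
open MeasureTheory Filter

/-! Task PR (helper59): probability of the initial event. -/

namespace Pool.Agent.H4R2.HD.PR

open Pool.Agent.H12R2.And (V ee pot PP Q Dep Good mem_Q Q_mono Q_trans card_Q)
open Pool.Agent.H4R2.HD.DJ (av_local uu_local)

lemma sumsq_le {ι : Type} (F : Finset ι) (c : ι → ℝ) (M T : ℝ) (h0 : ∀ z ∈ F, 0 ≤ c z)
    (hM : ∀ z ∈ F, c z ≤ M) (hT : ∑ z ∈ F, c z ≤ T) (hM0 : 0 ≤ M) : ∑ z ∈ F, c z ^ 2 ≤ M * T := by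
  calc ∑ z ∈ F, c z ^ 2 ≤ ∑ z ∈ F, M * c z := by
        refine Finset.sum_le_sum fun z hz => ?_
        rw [sq]
        exact mul_le_mul_of_nonneg_right (hM z hz) (h0 z hz)
    _ = M * ∑ z ∈ F, c z := by rw [Finset.mul_sum]
    _ ≤ M * T := mul_le_mul_of_nonneg_left hT hM0

theorem PR (hMT : S_MT) (hIN1 : S_IN1) (hIN2 : S_IN2) (hME1 : S_ME1) (hME2 : S_ME2)
    (hKB : S_KB) (hKS : S_KS) (hloc : S_BA_iter_local) : S_PR := by
  intro d hd N η L0 a hN hη hmean
  have hd' : (1 : ℝ) ≤ d := by exact_mod_cast hd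
  have hN' : (1 : ℝ) ≤ N := by exact_mod_cast hN
  set s : ℝ := (Real.sqrt d)⁻¹ with hs
  have hsq1 : (1 : ℝ) ≤ Real.sqrt d := by
    rw [show (1 : ℝ) = Real.sqrt 1 by simp]
    exact Real.sqrt_le_sqrt hd'
  have hs0 : 0 < s := by positivity
  have hs1 : s ≤ 1 := inv_le_one_of_one_le₀ hsq1
  set KK : ℝ := ((2 * N).factorial : ℝ) with hKK
  have hKK1 : (1 : ℝ) ≤ KK := by
    rw [hKK]; exact_mod_cast Nat.one_le_iff_ne_zero.mpr (Nat.factorial_ne_zero _)
  have hKK0 : 0 < KK := by linarith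
  set S : ℝ := 4 * N ^ 2 * KK * s ^ N with hS
  have hS0 : 0 < S := by positivity
  have hsN : s ^ N = ((Real.sqrt d) ^ N)⁻¹ := by rw [hs, inv_pow]
  -- kernel bounds
  have hker : ∀ (n : ℕ) (z x : V d), n < N →
      (Av^[N + n] (ind z)) x ≤ KK * s ^ N := by
    intro n z x hn
    refine ((hKB hd (N + n) z x).2).trans ?_
    have h1 : ((N + n + 1).factorial : ℝ) ≤ KK := by
      rw [hKK]; exact_mod_cast Nat.factorial_le (by omega)
    have h2 : s ^ (N + n) ≤ s ^ N := pow_le_pow_of_le_one hs0.le hs1 (by omega)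
    exact mul_le_mul h1 h2 (by positivity) hKK0.le
  have hker0 : ∀ (z x : V d), (Av^[N] (ind z)) x ≤ KK * s ^ N := by
    intro z x
    have := hker 0 z x (by omega)
    simpa using this
  set q : ℝ := 2 * Real.exp (-(η ^ 2 * (Real.sqrt d) ^ N / (8 * N ^ 2 * KK))) with hq
  have hexp : 2 * (η / 2) ^ 2 / S = η ^ 2 * (Real.sqrt d) ^ N / (8 * N ^ 2 * KK) := by
    rw [hS, hsN]
    have : (0 : ℝ) < (Real.sqrt d) ^ N := by positivity
    field_simp
    ring
  have hP1 : ∀ x : V d, (PP d).real {ω | η < |(Av^[N] (pot ω)) x|} ≤ q := by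
    intro x
    have h := hMT (Q x N) (fun ω => (Av^[N] (pot ω)) x) (fun z => 2 * (Av^[N] (ind z)) x) S η
      (fun ω ω' h => av_local hloc N N x le_rfl ω ω' h)
      (fun z _ ω => by
        rw [hIN1 N z x ω, abs_of_nonneg]
        exact mul_nonneg (by norm_num) (hKB hd N z x).1) ?_ hS0 hη.le
    · rw [hME1 N x] at h
      simp only [sub_zero] at h
      refine h.trans ?_
      rw [hq]
      have : η ^ 2 * (Real.sqrt d) ^ N / (8 * N ^ 2 * KK) ≤ 2 * η ^ 2 / S := by
        rw [← hexp]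
        apply div_le_div_of_nonneg_right _ hS0.le
        nlinarith [sq_nonneg η]
      have h3 : Real.exp (-(2 * η ^ 2 / S)) ≤
          Real.exp (-(η ^ 2 * (Real.sqrt d) ^ N / (8 * N ^ 2 * KK))) :=
        Real.exp_le_exp.mpr (by linarith)
      linarith
    · have h1 := sumsq_le (Q x N) (fun z => 2 * (Av^[N] (ind z)) x) (2 * (KK * s ^ N)) 2
        (fun z _ => mul_nonneg (by norm_num) (hKB hd N z x).1)
        (fun z _ => mul_le_mul_of_nonneg_left (hker0 z x) (by norm_num))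
        (by rw [← Finset.mul_sum]; have := hKS hd N (Q x N) x; linarith) (by positivity)
      refine h1.trans ?_
      rw [hS]
      have : (1 : ℝ) ≤ (N : ℝ) ^ 2 := one_le_pow₀ hN'
      have h4 : 0 < KK * s ^ N := by positivity
      nlinarith
  have hP2 : ∀ x : V d, (PP d).real {ω | η < |(Av^[N] (Uu N ω)) x|} ≤ q := by
    intro x
    set c : V d → ℝ := fun z => (N / d) * (Av^[N] (ind z)) x +
      (1 / d) * ∑ n ∈ Finset.range N, (Av^[N + n] (ind z)) x with hc
    have hc0 : ∀ z, 0 ≤ c z := by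
      intro z
      rw [hc]
      have h1 := (hKB hd N z x).1
      have h2 : 0 ≤ ∑ n ∈ Finset.range N, (Av^[N + n] (ind z)) x :=
        Finset.sum_nonneg fun n _ => (hKB hd (N + n) z x).1
      positivity
    have hcM : ∀ z, c z ≤ 2 * N * (KK * s ^ N) := by
      intro z
      rw [hc]
      have h2 : ∑ n ∈ Finset.range N, (Av^[N + n] (ind z)) x ≤ N * (KK * s ^ N) := by
        calc ∑ n ∈ Finset.range N, (Av^[N + n] (ind z)) x
            ≤ ∑ n ∈ Finset.range N, KK * s ^ N :=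
              Finset.sum_le_sum fun n hn => hker n z x (Finset.mem_range.mp hn)
          _ = N * (KK * s ^ N) := by simp
      have h1 := hker0 z x
      have h4 : 0 < KK * s ^ N := by positivity
      have hdi : (1 : ℝ) / d ≤ 1 := by
        rw [div_le_one (by linarith)]; exact hd'
      have hdi0 : 0 ≤ (1 : ℝ) / d := by positivity
      have e : (N / d : ℝ) = N * (1 / d) := by ring
      simp only []
      rw [e]
      have h5 : (N : ℝ) * (1 / d) * (Av^[N] (ind z)) x ≤ N * (KK * s ^ N) := by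
        have h6 : (1 / d : ℝ) * (Av^[N] (ind z)) x ≤ 1 * (KK * s ^ N) :=
          mul_le_mul hdi h1 (hKB hd N z x).1 (by norm_num)
        calc (N : ℝ) * (1 / d) * (Av^[N] (ind z)) x = N * ((1 / d) * (Av^[N] (ind z)) x) := by ring
          _ ≤ N * (1 * (KK * s ^ N)) := mul_le_mul_of_nonneg_left h6 (by positivity)
          _ = _ := by ring
      have h7 : (1 / d : ℝ) * ∑ n ∈ Finset.range N, (Av^[N + n] (ind z)) x ≤ 1 * (N * (KK * s ^ N)) :=
        mul_le_mul hdi h2 (Finset.sum_nonneg fun n _ => (hKB hd (N + n) z x).1) (by norm_num)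
      linarith
    have hcT : ∑ z ∈ Q x (2 * N), c z ≤ 2 * N := by
      rw [hc]
      simp only []
      rw [Finset.sum_add_distrib, ← Finset.mul_sum, ← Finset.mul_sum, Finset.sum_comm]
      have h1 := hKS hd N (Q x (2 * N)) x
      have h2 : ∑ n ∈ Finset.range N, ∑ z ∈ Q x (2 * N), (Av^[N + n] (ind z)) x ≤ N := by
        calc ∑ n ∈ Finset.range N, ∑ z ∈ Q x (2 * N), (Av^[N + n] (ind z)) x
            ≤ ∑ n ∈ Finset.range N, (1 : ℝ) := Finset.sum_le_sum fun n _ => hKS hd (N + n) _ x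
          _ = N := by simp
      have h10 : 0 ≤ ∑ z ∈ Q x (2 * N), (Av^[N] (ind z)) x :=
        Finset.sum_nonneg fun z _ => (hKB hd N z x).1
      have h20 : 0 ≤ ∑ n ∈ Finset.range N, ∑ z ∈ Q x (2 * N), (Av^[N + n] (ind z)) x :=
        Finset.sum_nonneg fun n _ => Finset.sum_nonneg fun z _ => (hKB hd (N + n) z x).1
      have hdi : (1 : ℝ) / d ≤ 1 := by
        rw [div_le_one (by linarith)]; exact hd'
      have e : (N / d : ℝ) = N * (1 / d) := by ring
      rw [e]
      have h3 : (N : ℝ) * (1 / d) * ∑ z ∈ Q x (2 * N), (Av^[N] (ind z)) x ≤ N := by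
        have h6 : (1 / d : ℝ) * ∑ z ∈ Q x (2 * N), (Av^[N] (ind z)) x ≤ 1 * 1 :=
          mul_le_mul hdi h1 h10 (by norm_num)
        calc (N : ℝ) * (1 / d) * ∑ z ∈ Q x (2 * N), (Av^[N] (ind z)) x
            = N * ((1 / d) * ∑ z ∈ Q x (2 * N), (Av^[N] (ind z)) x) := by ring
          _ ≤ N * (1 * 1) := mul_le_mul_of_nonneg_left h6 (by positivity)
          _ = _ := by ring
      have h4 : (1 / d : ℝ) * ∑ n ∈ Finset.range N, ∑ z ∈ Q x (2 * N), (Av^[N + n] (ind z)) x
          ≤ 1 * N := mul_le_mul hdi h2 h20 (by norm_num)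
      linarith
    have h := hMT (Q x (2 * N)) (fun ω => (Av^[N] (Uu N ω)) x) c S (η / 2)
      (fun ω ω' h => uu_local hloc N x ω ω' h)
      (fun z _ ω => hIN2 hd N z x ω) ?_ hS0 (by linarith)
    · rw [hexp] at h
      refine le_trans ?_ h
      refine measureReal_mono ?_ (measure_ne_top _ _)
      intro ω hω
      simp only [Set.mem_ofPred_eq] at hω ⊢
      have hm := (hME2 hd N x hN).trans hmean
      set m := ∫ ω', (Av^[N] (Uu N ω')) x ∂(PP d)
      have h3 : |(Av^[N] (Uu N ω)) x| ≤ |(Av^[N] (Uu N ω)) x - m| + |m| := by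
        have := abs_add_le ((Av^[N] (Uu N ω)) x - m) m
        simpa using this
      linarith
    · have h1 := sumsq_le (Q x (2 * N)) c (2 * N * (KK * s ^ N)) (2 * N)
        (fun z _ => hc0 z) (fun z _ => hcM z) hcT (by positivity)
      refine h1.trans (le_of_eq ?_)
      rw [hS]; ring
  have h1 : {ω | ¬ JJ N η L0 ω a} ⊆ ⋃ x ∈ Q a (L0 - 2 * N),
      ({ω : V d → Bool | η < |(Av^[N] (pot ω)) x|} ∪ {ω : V d → Bool | η < |(Av^[N] (Uu N ω)) x|}) := by
    intro ω hω
    simp only [JJ, Set.mem_ofPred_eq, not_forall] at hω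
    obtain ⟨x, hx, h⟩ := hω
    simp only [Set.mem_iUnion]
    refine ⟨x, hx, ?_⟩
    by_contra hcon
    simp only [Set.mem_union, Set.mem_ofPred_eq, not_or, not_lt] at hcon
    exact h hcon
  calc (PP d).real {ω | ¬ JJ N η L0 ω a}
      ≤ (PP d).real (⋃ x ∈ Q a (L0 - 2 * N), ({ω : V d → Bool | η < |(Av^[N] (pot ω)) x|} ∪
          {ω : V d → Bool | η < |(Av^[N] (Uu N ω)) x|})) :=
        measureReal_mono h1 (measure_ne_top _ _)
    _ ≤ ∑ x ∈ Q a (L0 - 2 * N), (PP d).real ({ω : V d → Bool | η < |(Av^[N] (pot ω)) x|} ∪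
          {ω : V d → Bool | η < |(Av^[N] (Uu N ω)) x|}) :=
        measureReal_biUnion_finset_le _ _
    _ ≤ ∑ x ∈ Q a (L0 - 2 * N), (q + q) := by
        refine Finset.sum_le_sum fun x _ => ?_
        exact (measureReal_union_le _ _).trans (add_le_add (hP1 x) (hP2 x))
    _ = ((2 * (L0 - 2 * N : ℕ) + 1) ^ d : ℕ) * (q + q) := by
        rw [Finset.sum_const, card_Q, nsmul_eq_mul]
    _ ≤ (2 * L0 + 1) ^ d * (q + q) := by
        push_cast
        have : ((L0 - 2 * N : ℕ) : ℝ) ≤ L0 := by exact_mod_cast Nat.sub_le L0 (2 * N)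
        have hq0 : 0 ≤ q := by positivity
        gcongr
    _ = _ := by rw [hq]; ring

end Pool.Agent.H4R2.HD.PR
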