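import Pool.Agent.H4R2.HD.Defs

set_option autoImplicit false

open scoped BigOperators ENNReal
open MeasureTheory Filter

namespace Pool.Agent.H4R2.HD

open Pool.Agent.H12R2.And (V ee pot PP Q Dep Good)

/-! ### BA: basics -/

def S_BA_iter_add : Prop := ∀ {d : ℕ} (n : ℕ) (f g : V d → ℝ),
  Av^[n] (fun x => f x + g x) = fun x => (Av^[n] f) x + (Av^[n] g) x
def S_BA_iter_smul : Prop := ∀ {d : ℕ} (n : ℕ) (c : ℝ) (f : V d → ℝ),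
  Av^[n] (fun x => c * f x) = fun x => c * (Av^[n] f) x
def S_BA_iter_sum : Prop := ∀ {d : ℕ} {ι : Type} (s : Finset ι) (n : ℕ) (f : ι → V d → ℝ),
  Av^[n] (fun x => ∑ i ∈ s, f i x) = fun x => ∑ i ∈ s, (Av^[n] (f i)) x
def S_BA_iter_mono : Prop := ∀ {d : ℕ} (n : ℕ) (f g : V d → ℝ), (∀ x, f x ≤ g x) →
  ∀ x, (Av^[n] f) x ≤ (Av^[n] g) x
def S_BA_iter_const : Prop := ∀ {d : ℕ}, 1 ≤ d → ∀ (n : ℕ) (c : ℝ) (x : V d),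
  (Av^[n] (fun _ => c)) x = c
def S_BA_iter_abs : Prop := ∀ {d : ℕ}, 1 ≤ d → ∀ (n : ℕ) (f : V d → ℝ) (M : ℝ),
  (∀ x, |f x| ≤ M) → ∀ x, |(Av^[n] f) x| ≤ M
/-- locality -/
def S_BA_iter_local : Prop := ∀ {d : ℕ} (n : ℕ) (f g : V d → ℝ) (x : V d),
  (∀ y ∈ Q x n, f y = g y) → (Av^[n] f) x = (Av^[n] g) x
/-- the parametrix: `-Δ (Gn N f) = f - Av^N f` -/
def S_BA_param : Prop := ∀ {d : ℕ}, 1 ≤ d → ∀ (N : ℕ) (f : V d → ℝ) (x : V d),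
  2 * d * Gn N f x - ∑ i : Fin d, (Gn N f (x + ee i) + Gn N f (x - ee i)) = f x - (Av^[N] f) x
def S_BA_Gn_abs : Prop := ∀ {d : ℕ}, 1 ≤ d → ∀ (N : ℕ) (f : V d → ℝ) (M : ℝ),
  (∀ x, |f x| ≤ M) → ∀ x, |Gn N f x| ≤ N * M / (2 * d)

/-! ### KB: kernel bound -/

/-- `(Avⁿ 1_z)(x) ≤ (n+1)! d^{-n/2}` -/
def S_KB : Prop := ∀ {d : ℕ}, 1 ≤ d → ∀ (n : ℕ) (z x : V d),
  0 ≤ (Av^[n] (ind z)) x ∧ (Av^[n] (ind z)) x ≤ ((n + 1).factorial : ℝ) * ((Real.sqrt d)⁻¹) ^ n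
/-- sub-probability -/
def S_KS : Prop := ∀ {d : ℕ}, 1 ≤ d → ∀ (n : ℕ) (F : Finset (V d)) (x : V d),
  ∑ z ∈ F, (Av^[n] (ind z)) x ≤ 1

/-! ### MC: McDiarmid's inequality for fair signs -/

/-- resampling identity -/
def S_MR : Prop := ∀ {d : ℕ} (F : Finset (V d)) (f : (V d → Bool) → ℝ),
  (∀ ω ω' : V d → Bool, (∀ x ∈ F, ω x = ω' x) → f ω = f ω') → ∀ z : V d,
  Integrable f (PP d) ∧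
  ∫ ω, f ω ∂(PP d) = ∫ ω, (f (Function.update ω z true) + f (Function.update ω z false)) / 2 ∂(PP d)
def S_MC : Prop := ∀ {d : ℕ} (F : Finset (V d)) (f : (V d → Bool) → ℝ) (c : V d → ℝ),
  (∀ ω ω' : V d → Bool, (∀ x ∈ F, ω x = ω' x) → f ω = f ω') →
  (∀ z ∈ F, ∀ ω : V d → Bool, |f (Function.update ω z true) - f (Function.update ω z false)| ≤ c z) →
  ∫ ω, Real.exp (f ω - ∫ ω', f ω' ∂(PP d)) ∂(PP d) ≤ Real.exp ((∑ z ∈ F, c z ^ 2) / 8)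
def S_MT : Prop := ∀ {d : ℕ} (F : Finset (V d)) (f : (V d → Bool) → ℝ) (c : V d → ℝ) (S t : ℝ),
  (∀ ω ω' : V d → Bool, (∀ x ∈ F, ω x = ω' x) → f ω = f ω') →
  (∀ z ∈ F, ∀ ω : V d → Bool, |f (Function.update ω z true) - f (Function.update ω z false)| ≤ c z) →
  ∑ z ∈ F, c z ^ 2 ≤ S → 0 < S → 0 ≤ t →
  (PP d).real {ω | t < |f ω - ∫ ω', f ω' ∂(PP d)|} ≤ 2 * Real.exp (-(2 * t ^ 2 / S))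

/-! ### IN: influences and means -/

def S_IN1 : Prop := ∀ {d : ℕ} (n : ℕ) (z x : V d) (ω : V d → Bool),
  (Av^[n] (pot (Function.update ω z true))) x - (Av^[n] (pot (Function.update ω z false))) x =
    2 * (Av^[n] (ind z)) x
def S_IN2 : Prop := ∀ {d : ℕ}, 1 ≤ d → ∀ (N : ℕ) (z x : V d) (ω : V d → Bool),
  |(Av^[N] (Uu N (Function.update ω z true))) x - (Av^[N] (Uu N (Function.update ω z false))) x| ≤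
    (N / d) * (Av^[N] (ind z)) x + (1 / d) * ∑ n ∈ Finset.range N, (Av^[N + n] (ind z)) x
def S_ME1 : Prop := ∀ {d : ℕ} (n : ℕ) (x : V d), ∫ ω, (Av^[n] (pot ω)) x ∂(PP d) = 0
def S_ME2 : Prop := ∀ {d : ℕ}, 1 ≤ d → ∀ (N : ℕ) (x : V d), 1 ≤ N →
  |∫ ω, (Av^[N] (Uu N ω)) x ∂(PP d)| ≤
    (1 / (2 * d)) * (N * ((N + 1).factorial : ℝ) * (Real.sqrt d)⁻¹)

/-! ### PR: probability of the initial event -/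

def S_PR : Prop := ∀ {d : ℕ}, 1 ≤ d → ∀ (N : ℕ) (η : ℝ) (L0 : ℕ) (a : V d), 1 ≤ N → 0 < η →
  (1 / (2 * d)) * (N * ((N + 1).factorial : ℝ) * (Real.sqrt d)⁻¹) ≤ η / 2 →
  (PP d).real {ω | ¬ JJ N η L0 ω a} ≤
    (2 * L0 + 1) ^ d * (4 * Real.exp (-(η ^ 2 * (Real.sqrt d) ^ N / (8 * N ^ 2 * ((2 * N).factorial : ℝ)))))
def S_DJ : Prop := ∀ {d : ℕ} (N : ℕ) (η : ℝ) (L0 : ℕ) (a : V d), 2 * N ≤ L0 →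
  Dep (Q a L0) {ω | JJ N η L0 ω a}

/-! ### GD: decay from the initial event -/

def S_GD : Prop := ∀ {d : ℕ}, 1 ≤ d → ∀ (N : ℕ) (ε η : ℝ) (L0 : ℕ), 1 ≤ N → 0 < ε → ε ≤ 1 →
  0 ≤ η → η ≤ ε / (16 * d) → 16 * (N + 1) ^ 2 / ε ≤ d → 2 * N ≤ L0 →
  ∀ (ω : V d → Bool) (a : V d), JJ N η L0 ω a →
  ∀ E : ℝ, (E ≤ -(1 + ε) / (2 * d) ∨ 4 * d + (1 + ε) / (2 * d) ≤ E) →
  Good ω E L0 (3 * (1 - ε / (16 * d ^ 2)) ^ (L0 - 2 * N + 1)) a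

/-! ### AS: asymptotics.  `L0 = 2 ^ (d ^ (m + 2))`, `N = 2 * m + 14` -/

def S_AS1 : Prop := ∀ m : ℕ, ∀ᶠ d : ℕ in atTop,
  (2 * d * 17 ^ d) ^ 2 * 10 ^ (4 * (3 * d + 4) + 2 * d + 2) ≤ 2 ^ (d ^ (m + 2)) ∧
  6 * 17 ^ (2 * d) * 10 ^ (2 * d + 1) ≤ 2 ^ (d ^ (m + 2)) ∧
  12 * 17 ^ d ≤ 2 ^ (d ^ (m + 2)) ∧ 4 ^ d * (4 * d ^ 2) ≤ 2 ^ (d ^ (m + 2))
def S_AS2 : Prop := ∀ (m N : ℕ) (ε : ℝ), 0 < ε → ∀ᶠ d : ℕ in atTop,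
  3 * (1 - ε / (16 * d ^ 2)) ^ (2 ^ (d ^ (m + 2)) - 2 * N + 1) ≤
    (((2 ^ (d ^ (m + 2)) : ℕ) : ℝ) ^ (4 * (3 * d + 4) + 2 * d + 2))⁻¹
def S_AS3 : Prop := ∀ (m : ℕ) (ε : ℝ), 0 < ε → ∀ᶠ d : ℕ in atTop,
  (2 * ((2 ^ (d ^ (m + 2)) : ℕ) : ℝ) + 1) ^ d * (4 * Real.exp (-((ε / (16 * d)) ^ 2 *
    (Real.sqrt d) ^ (2 * m + 14) / (8 * ((2 * m + 14 : ℕ) : ℝ) ^ 2 * ((2 * (2 * m + 14)).factorial : ℝ))))) ≤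
    (((2 ^ (d ^ (m + 2)) : ℕ) : ℝ) ^ (2 * d + 1))⁻¹
def S_AS4 : Prop := ∀ (m : ℕ), ∀ᶠ d : ℕ in atTop,
  (((2 ^ (d ^ (m + 2)) : ℕ) : ℝ))⁻¹ ≤ Real.exp (-(d : ℝ) ^ m) / 2
def S_AS5 : Prop := ∀ (N : ℕ) (ε : ℝ), 0 < ε → ∀ᶠ d : ℕ in atTop,
  (1 / (2 * (d : ℝ))) * (N * ((N + 1).factorial : ℝ) * (Real.sqrt d)⁻¹) ≤ (ε / (16 * d)) / 2 ∧
  16 * ((N : ℝ) + 1) ^ 2 / ε ≤ d ∧ ∀ m : ℕ, 2 * N ≤ 2 ^ (d ^ (m + 2))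

end Pool.Agent.H4R2.HD
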